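import Pool.Agent.LL.FinPair
import Pool.Agent.S12.Cpt

/-!
The two conclusions for one partition of a proportionately dissociated set of natural numbers.
-/

set_option autoImplicit false

namespace Pool.Agent.Helper36.LL

open Finset

/-- The embedding of the natural numbers in the integers. -/
def emb : ℕ ↪ ℤ := ⟨fun n => (n : ℤ), Nat.cast_injective⟩

theorem emb_sum (X : Finset ℕ) : (X.map emb).sum id = ((X.sum id : ℕ) : ℤ) := by
  rw [Finset.sum_map]
  simp [emb]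

/-- Distinct subset sums, for naturals. -/
def DSN (D : Finset ℕ) : Prop :=
  ∀ X Y : Finset ℕ, X ⊆ D → Y ⊆ D → X ≠ Y → X.sum id ≠ Y.sum id

theorem DSN_of_DS {D : Finset ℕ} (h : Pool.Agent.LL.DS (D.map emb)) : DSN D := by
  intro X Y hX hY hne hXY
  apply hne
  apply Finset.map_injective emb
  exact h _ _ (Finset.map_subset_map.2 hX) (Finset.map_subset_map.2 hY) (by
    rw [emb_sum, emb_sum, hXY])

theorem filter_map {D : Finset ℕ} {X : Finset ℤ} (hX : X ⊆ D.map emb) :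
    (D.filter (fun v : ℕ => emb v ∈ X)).map emb = X := by
  ext x
  simp only [Finset.mem_map, Finset.mem_filter]
  constructor
  · rintro ⟨y, ⟨_, hy⟩, rfl⟩; exact hy
  · intro hx
    obtain ⟨y, hy, rfl⟩ := Finset.mem_map.1 (hX hx)
    exact ⟨y, ⟨hy, hx⟩, rfl⟩

theorem DS_of_DSN {D : Finset ℕ} (h : DSN D) : Pool.Agent.LL.DS (D.map emb) := by
  intro X Y hX hY hXY
  rw [← filter_map hX, ← filter_map hY, emb_sum, emb_sum] at hXY
  have hXY' := Nat.cast_injective hXY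
  by_contra hne
  refine h _ _ (Finset.filter_subset (fun v : ℕ => emb v ∈ X) D)
    (Finset.filter_subset (fun v : ℕ => emb v ∈ Y) D) (fun h1 => hne ?_) hXY'
  rw [← filter_map hX, ← filter_map hY, h1]

/-- One partition with both properties. -/
theorem pair_nat (A : Set ℕ) (c : ℝ) (hc : 0 < c)
    (hA : ∀ B : Finset ℕ, (↑B : Set ℕ) ⊆ A → ∃ D : Finset ℕ, D ⊆ B ∧ DSN D ∧
      c * (B.card : ℝ) ≤ (D.card : ℝ)) (L : ℕ) (hL : 1 ≤ L) :
    ∃ F : Fin (4 * ⌈1 / c⌉₊ * (Nat.clog 2 (3 * L) + 2) + 2) → Set ℕ,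
      A = ⋃ i, F i ∧
      ∀ i, ∀ B : Finset ℕ, (↑B : Set ℕ) ⊆ F i →
        (B.card ≤ L → DSN B) ∧
        (B.card ≤ 2 ^ L → ∃ E : Fin 4 → Finset ℕ, B = Finset.univ.biUnion E ∧
          ∀ j, DSN (E j)) := by
  classical
  have hCc : 1 ≤ ((⌈1 / c⌉₊ : ℕ) : ℝ) * c := by
    have h := Nat.le_ceil (1 / c)
    rw [div_le_iff₀ hc] at h
    exact h
  obtain ⟨f, hf⟩ := Pool.Agent.S12.compactness
    (4 * ⌈1 / c⌉₊ * (Nat.clog 2 (3 * L) + 2) + 2) A
    (fun B => (B.card ≤ L → DSN B) ∧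
        (B.card ≤ 2 ^ L → ∃ E : Fin 4 → Finset ℕ, B = Finset.univ.biUnion E ∧
          ∀ j, DSN (E j))) (by
    intro V hV
    obtain ⟨g, hg⟩ := Pool.Agent.LL.fin_pair (V.map emb) ⌈1 / c⌉₊ L _ hL (by
      intro B hB
      obtain ⟨D, hD, hdis, hcard⟩ := hA (V.filter (fun v : ℕ => emb v ∈ B)) (by
        intro x hx
        exact hV (Finset.mem_coe.2 (Finset.mem_filter.1 (Finset.mem_coe.1 hx)).1))
      refine ⟨D.map emb, ?_, DS_of_DSN hdis, ?_⟩
      · rw [← filter_map hB]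
        exact Finset.map_subset_map.2 hD
      · have hBc : B.card = (V.filter (fun v : ℕ => emb v ∈ B)).card := by
          conv_lhs => rw [← filter_map hB, Finset.card_map]
        rw [Finset.card_map, hBc]
        set B' := V.filter (fun v : ℕ => emb v ∈ B) with hB'
        have h1 : (B'.card : ℝ) ≤ ((⌈1 / c⌉₊ : ℕ) : ℝ) * (D.card : ℝ) := by
          calc (B'.card : ℝ) = 1 * (B'.card : ℝ) := by ring
            _ ≤ (((⌈1 / c⌉₊ : ℕ) : ℝ) * c) * (B'.card : ℝ) := by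
                exact mul_le_mul_of_nonneg_right hCc (by positivity)
            _ = ((⌈1 / c⌉₊ : ℕ) : ℝ) * (c * (B'.card : ℝ)) := by ring
            _ ≤ ((⌈1 / c⌉₊ : ℕ) : ℝ) * (D.card : ℝ) :=
                mul_le_mul_of_nonneg_left hcard (by positivity)
        exact_mod_cast h1) le_rfl
    refine ⟨fun n => g (emb n), fun B hB hmono => ?_⟩
    obtain ⟨h1, h2⟩ := hg (B.map emb) (Finset.map_subset_map.2 hB) (by
      intro x hx y hy
      obtain ⟨x', hx', rfl⟩ := Finset.mem_map.1 hx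
      obtain ⟨y', hy', rfl⟩ := Finset.mem_map.1 hy
      exact hmono x' hx' y' hy')
    rw [Finset.card_map] at h1 h2
    refine ⟨fun h => DSN_of_DS (h1 h), fun h => ?_⟩
    obtain ⟨k, hk⟩ := h2 h
    refine ⟨fun j => B.filter (fun n => k (emb n) = j), ?_, fun j => ?_⟩
    · ext x
      simp only [Finset.mem_biUnion, Finset.mem_univ, true_and, Finset.mem_filter]
      exact ⟨fun hx => ⟨_, hx, rfl⟩, fun ⟨_, hx, _⟩ => hx⟩
    · apply DSN_of_DS
      have h3 : (B.filter (fun n => k (emb n) = j)).map emb =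
          (B.map emb).filter (fun x => k x = j) := by
        ext x
        simp only [Finset.mem_map, Finset.mem_filter]
        constructor
        · rintro ⟨y, ⟨hy, hyj⟩, rfl⟩
          exact ⟨⟨y, hy, rfl⟩, hyj⟩
        · rintro ⟨⟨y, hy, rfl⟩, hyj⟩
          exact ⟨y, ⟨hy, hyj⟩, rfl⟩
      rw [h3]
      exact hk j)
  refine ⟨fun i => {n : ℕ | n ∈ A ∧ f n = i}, ?_, ?_⟩
  · ext n
    simp only [Set.mem_iUnion, Set.mem_ofPred_eq]
    exact ⟨fun h => ⟨_, h, rfl⟩, fun ⟨_, h, _⟩ => h⟩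
  · intro i B hB
    exact hf B (fun x hx => (hB hx).1) (fun x hx y hy => (hB hx).2.trans (hB hy).2.symm)

end Pool.Agent.Helper36.LL
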