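import Mathlib

/-!
Mass functions on an abelian group obtained by adding independent integer digits.
-/

set_option autoImplicit false

namespace Pool.Agent.Helper36.LL

open scoped ENNReal
open Finset

variable {G : Type*} [AddCommGroup G]

/-- Add the digit `j` with weight `w j` times the group element `b`. -/
noncomputable def conv (w : ℤ → ℝ≥0∞) (b : G) (p : G → ℝ≥0∞) (v : G) : ℝ≥0∞ :=
  ∑' j : ℤ, w j * p (v - j • b)

theorem conv_comm (w w' : ℤ → ℝ≥0∞) (b b' : G) (p : G → ℝ≥0∞) :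
    conv w b (conv w' b' p) = conv w' b' (conv w b p) := by
  funext v
  simp only [conv, ← ENNReal.tsum_mul_left]
  rw [ENNReal.tsum_comm]
  refine tsum_congr fun j => tsum_congr fun l => ?_
  rw [sub_right_comm]
  ring

/-- The unit mass at zero. -/
noncomputable def dlt (v : G) : ℝ≥0∞ := by
  classical exact if v = 0 then 1 else 0

instance lc (w : G → ℤ → ℝ≥0∞) :
    LeftCommutative (fun (b : G) (p : G → ℝ≥0∞) => conv (w b) b p) :=
  ⟨fun b b' p => conv_comm (w b) (w b') b b' p⟩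

/-- Add the digits of all elements of `B` to `p`. -/
noncomputable def FF (w : G → ℤ → ℝ≥0∞) (B : Finset G) (p : G → ℝ≥0∞) : G → ℝ≥0∞ :=
  Multiset.foldr (fun (b : G) (p : G → ℝ≥0∞) => conv (w b) b p) p B.val

/-- Digits of `B`, starting from the unit mass at zero. -/
noncomputable def F (w : G → ℤ → ℝ≥0∞) (B : Finset G) : G → ℝ≥0∞ := FF w B dlt

@[simp] theorem FF_empty (w : G → ℤ → ℝ≥0∞) (p : G → ℝ≥0∞) : FF w ∅ p = p := by
  simp [FF]

@[simp] theorem F_empty (w : G → ℤ → ℝ≥0∞) : F w (∅ : Finset G) = dlt := by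
  simp [F]

theorem FF_insert [DecidableEq G] (w : G → ℤ → ℝ≥0∞) {b : G} {B : Finset G} (hb : b ∉ B)
    (p : G → ℝ≥0∞) : FF w (insert b B) p = conv (w b) b (FF w B p) := by
  unfold FF
  rw [Finset.insert_val_of_notMem hb, Multiset.foldr_cons]

theorem F_insert [DecidableEq G] (w : G → ℤ → ℝ≥0∞) {b : G} {B : Finset G} (hb : b ∉ B) :
    F w (insert b B) = conv (w b) b (F w B) := FF_insert w hb _

theorem FF_conv [DecidableEq G] (w : G → ℤ → ℝ≥0∞) (w' : ℤ → ℝ≥0∞) (b : G) (B : Finset G)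
    (p : G → ℝ≥0∞) : FF w B (conv w' b p) = conv w' b (FF w B p) := by
  induction B using Finset.induction_on with
  | empty => simp
  | insert c B hc ih => rw [FF_insert w hc, FF_insert w hc, ih, conv_comm]

theorem FF_congr [DecidableEq G] {w w' : G → ℤ → ℝ≥0∞} {B : Finset G}
    (h : ∀ b ∈ B, w b = w' b) (p : G → ℝ≥0∞) : FF w B p = FF w' B p := by
  induction B using Finset.induction_on with
  | empty => simp
  | insert c B hc ih =>
    rw [FF_insert w hc, FF_insert w' hc, h c (Finset.mem_insert_self _ _),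
      ih (fun b hb => h b (Finset.mem_insert_of_mem hb))]

theorem F_congr [DecidableEq G] {w w' : G → ℤ → ℝ≥0∞} {B : Finset G}
    (h : ∀ b ∈ B, w b = w' b) : F w B = F w' B := FF_congr h _

/-! ### symmetry -/

theorem dlt_neg (v : G) : dlt (-v) = dlt v := by
  classical
  simp [dlt, neg_eq_zero]

theorem conv_neg {w : ℤ → ℝ≥0∞} (hw : ∀ j, w (-j) = w j) (b : G) {p : G → ℝ≥0∞}
    (hp : ∀ v, p (-v) = p v) (v : G) : conv w b p (-v) = conv w b p v := by
  unfold conv
  rw [← (Equiv.neg ℤ).tsum_eq]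
  refine tsum_congr fun j => ?_
  simp only [Equiv.neg_apply, hw]
  rw [← hp (v - j • b)]
  congr 2
  simp [neg_smul]
  abel

theorem FF_neg [DecidableEq G] {w : G → ℤ → ℝ≥0∞} {B : Finset G}
    (hw : ∀ b ∈ B, ∀ j, w b (-j) = w b j) {p : G → ℝ≥0∞} (hp : ∀ v, p (-v) = p v) :
    ∀ v, FF w B p (-v) = FF w B p v := by
  induction B using Finset.induction_on with
  | empty => simpa using hp
  | insert c B hc ih =>
    intro v
    rw [FF_insert w hc]
    exact conv_neg (hw c (Finset.mem_insert_self _ _)) c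
      (ih (fun b hb => hw b (Finset.mem_insert_of_mem hb))) v

theorem F_neg [DecidableEq G] {w : G → ℤ → ℝ≥0∞} {B : Finset G}
    (hw : ∀ b ∈ B, ∀ j, w b (-j) = w b j) : ∀ v, F w B (-v) = F w B v :=
  FF_neg hw dlt_neg

/-! ### total mass -/

theorem conv_mass (w : ℤ → ℝ≥0∞) (b : G) (p : G → ℝ≥0∞) :
    ∑' v, conv w b p v = (∑' j, w j) * ∑' v, p v := by
  unfold conv
  rw [ENNReal.tsum_comm]
  simp only [ENNReal.tsum_mul_left]
  rw [← ENNReal.tsum_mul_right]
  refine tsum_congr fun j => ?_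
  congr 1
  exact (Equiv.subRight (j • b)).tsum_eq p

theorem dlt_mass : ∑' v : G, dlt v = 1 := by
  classical
  unfold dlt
  exact tsum_ite_eq 0 _

theorem F_mass [DecidableEq G] (w : ℤ → ℝ≥0∞) (B : Finset G) :
    ∑' v, F (fun _ : G => w) B v = (∑' j, w j) ^ B.card := by
  induction B using Finset.induction_on with
  | empty => simp [dlt_mass]
  | insert c B hc ih => rw [F_insert _ hc, conv_mass, ih, Finset.card_insert_of_notMem hc, pow_succ']

theorem F_le_mass [DecidableEq G] (w : ℤ → ℝ≥0∞) (B : Finset G) (v : G) :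
    F (fun _ : G => w) B v ≤ (∑' j, w j) ^ B.card := by
  rw [← F_mass]
  exact ENNReal.le_tsum v

theorem FF_zero_le [DecidableEq G] {w : G → ℤ → ℝ≥0∞} {B : Finset G} (hw : ∀ b ∈ B, w b 0 = 1)
    (p : G → ℝ≥0∞) (v : G) : p v ≤ FF w B p v := by
  induction B using Finset.induction_on with
  | empty => simp
  | insert c B hc ih =>
    rw [FF_insert w hc]
    refine (ih (fun b hb => hw b (Finset.mem_insert_of_mem hb))).trans ?_
    unfold conv
    refine le_trans ?_ (ENNReal.le_tsum (0 : ℤ))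
    simp [hw c (Finset.mem_insert_self _ _)]

theorem F_zero_ge [DecidableEq G] {w : G → ℤ → ℝ≥0∞} {B : Finset G} (hw : ∀ b ∈ B, w b 0 = 1) :
    1 ≤ F w B 0 := by
  refine le_trans ?_ (FF_zero_le hw dlt 0)
  simp [dlt]

end Pool.Agent.Helper36.LL
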