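import Mathlib
import Pool.Agent.Helper36.LL.Conv

/-!
Completely positive kernels and the domination lemma.
-/

set_option autoImplicit false

namespace Pool.Agent.Helper36.LL

open scoped ENNReal
open Finset

variable {G : Type*} [AddCommGroup G]

/-- A kernel which is a sum of products of nonnegative functions. -/
def CP {α : Type*} (M : α → α → ℝ≥0∞) : Prop :=
  ∃ (ι : Type) (c : ι → ℝ≥0∞) (U : ι → α → ℝ≥0∞), ∀ g h, M g h = ∑' i, c i * (U i g * U i h)

theorem two_mul_le (a b : ℝ≥0∞) : 2 * (a * b) ≤ a * a + b * b := by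
  rcases le_total a b with h | h
  · obtain ⟨t, rfl⟩ := exists_add_of_le h
    calc 2 * (a * (a + t)) ≤ 2 * (a * (a + t)) + t * t := le_self_add
      _ = a * a + (a + t) * (a + t) := by ring
  · obtain ⟨t, rfl⟩ := exists_add_of_le h
    calc 2 * ((b + t) * b) ≤ 2 * ((b + t) * b) + t * t := le_self_add
      _ = (b + t) * (b + t) + b * b := by ring

theorem CP.two_mul_le {α : Type*} {M : α → α → ℝ≥0∞} (hM : CP M) (g h : α) :
    2 * M g h ≤ M g g + M h h := by
  obtain ⟨ι, c, U, hU⟩ := hM
  rw [hU, hU, hU, ← ENNReal.tsum_mul_left, ← ENNReal.tsum_add]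
  refine ENNReal.tsum_le_tsum fun i => ?_
  calc 2 * (c i * (U i g * U i h)) = c i * (2 * (U i g * U i h)) := by ring
    _ ≤ c i * (U i g * U i g + U i h * U i h) := by gcongr; exact Pool.Agent.Helper36.LL.two_mul_le _ _
    _ = _ := by ring

/-- The digit kernel of a pair of digit weights. -/
noncomputable def kk (w w' : ℤ → ℝ≥0∞) (m n : ℤ) : ℝ≥0∞ :=
  if (m - n) % 2 = 0 then w ((m + n) / 2) * w' ((m - n) / 2) else 0

/-- Change of variables `m = j + l`, `n = j - l`. -/
theorem sum_parity (w w' : ℤ → ℝ≥0∞) (Φ : ℤ → ℤ → ℝ≥0∞) :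
    ∑' j, ∑' l, w j * w' l * Φ (j + l) (j - l) = ∑' m, ∑' n, kk w w' m n * Φ m n := by
  rw [← ENNReal.tsum_prod, ← ENNReal.tsum_prod]
  let g : ℤ × ℤ → ℤ × ℤ := fun p => (p.1 + p.2, p.1 - p.2)
  have hg : Function.Injective g := by
    rintro ⟨a, b⟩ ⟨c, d⟩ h
    simp only [g, Prod.mk.injEq] at h
    ext <;> simp <;> omega
  have hs : Function.support (fun p : ℤ × ℤ => kk w w' p.1 p.2 * Φ p.1 p.2) ⊆ Set.range g := by
    rintro ⟨m, n⟩ h
    have h1 : (m - n) % 2 = 0 := by
      by_contra h0
      apply h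
      simp [kk, h0]
    refine ⟨((m + n) / 2, (m - n) / 2), ?_⟩
    simp only [g, Prod.mk.injEq]
    omega
  rw [← hg.tsum_eq hs]
  refine tsum_congr fun p => ?_
  obtain ⟨j, l⟩ := p
  have e1 : ((j + l) - (j - l)) % 2 = 0 := by omega
  have e2 : ((j + l) + (j - l)) / 2 = j := by omega
  have e3 : ((j + l) - (j - l)) / 2 = l := by omega
  have e4 : kk w w' (j + l) (j - l) = w j * w' l := by
    unfold kk
    rw [if_pos e1, e2, e3]
  change w j * w' l * Φ (j + l) (j - l) = kk w w' (j + l) (j - l) * Φ (j + l) (j - l)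
  rw [e4]

/-- The joint kernel of two mass functions. -/
noncomputable def MM (p r : G → ℝ≥0∞) (g h : G) : ℝ≥0∞ := by
  classical exact ∑' s : G, ∑' t : G, if s + t = g ∧ s - t = h then p s * r t else 0

theorem MM_conv (w w' : ℤ → ℝ≥0∞) (b : G) (p r : G → ℝ≥0∞) (g h : G) :
    MM (conv w b p) (conv w' b r) g h
      = ∑' j, ∑' l, w j * w' l * MM p r (g - (j + l) • b) (h - (j - l) • b) := by
  classical
  have e1 : MM (conv w b p) (conv w' b r) g h
      = ∑' s : G, ∑' t : G, ∑' j : ℤ, ∑' l : ℤ,
        if s + t = g ∧ s - t = h then w j * w' l * (p (s - j • b) * r (t - l • b)) else 0 := by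
    unfold MM
    refine tsum_congr fun s => tsum_congr fun t => ?_
    split_ifs with hst
    · unfold conv
      rw [← ENNReal.tsum_mul_right]
      refine tsum_congr fun j => ?_
      rw [← ENNReal.tsum_mul_left]
      refine tsum_congr fun l => ?_
      ring
    · simp
  have e2 : ∀ j l : ℤ, MM p r (g - (j + l) • b) (h - (j - l) • b)
      = ∑' s : G, ∑' t : G,
        if s + t = g ∧ s - t = h then (p (s - j • b) * r (t - l • b)) else 0 := by
    intro j l
    unfold MM
    rw [← (Equiv.subRight (j • b)).tsum_eq]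
    refine tsum_congr fun s => ?_
    rw [← (Equiv.subRight (l • b)).tsum_eq]
    refine tsum_congr fun t => ?_
    have hc : ((Equiv.subRight (j • b)) s + (Equiv.subRight (l • b)) t = g - (j + l) • b ∧
        (Equiv.subRight (j • b)) s - (Equiv.subRight (l • b)) t = h - (j - l) • b)
        ↔ (s + t = g ∧ s - t = h) := by
      simp only [Equiv.subRight_apply, add_smul, sub_smul]
      constructor
      · rintro ⟨h1, h2⟩
        constructor
        · have := congrArg (fun x => x + (j • b + l • b)) h1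
          simp only [sub_add_cancel] at this
          rw [← this]; abel
        · have := congrArg (fun x => x + (j • b - l • b)) h2
          simp only [sub_add_cancel] at this
          rw [← this]; abel
      · rintro ⟨rfl, rfl⟩
        constructor <;> abel
    exact if_congr hc rfl rfl
  rw [e1]
  simp only [e2, ← ENNReal.tsum_mul_left, mul_ite, mul_zero]
  -- exchange the order of summation
  calc ∑' s : G, ∑' t : G, ∑' j : ℤ, ∑' l : ℤ,
        (if s + t = g ∧ s - t = h then w j * w' l * (p (s - j • b) * r (t - l • b)) else 0)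
      = ∑' s : G, ∑' j : ℤ, ∑' t : G, ∑' l : ℤ,
        (if s + t = g ∧ s - t = h then w j * w' l * (p (s - j • b) * r (t - l • b)) else 0) := by
        refine tsum_congr fun s => ?_
        rw [ENNReal.tsum_comm]
    _ = ∑' j : ℤ, ∑' s : G, ∑' t : G, ∑' l : ℤ,
        (if s + t = g ∧ s - t = h then w j * w' l * (p (s - j • b) * r (t - l • b)) else 0) := by
        rw [ENNReal.tsum_comm]
    _ = ∑' j : ℤ, ∑' s : G, ∑' l : ℤ, ∑' t : G,
        (if s + t = g ∧ s - t = h then w j * w' l * (p (s - j • b) * r (t - l • b)) else 0) := by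
        refine tsum_congr fun j => tsum_congr fun s => ?_
        rw [ENNReal.tsum_comm]
    _ = _ := by
        refine tsum_congr fun j => ?_
        rw [ENNReal.tsum_comm]

/-- `p` dominates `r`. -/
def Dom (p r : G → ℝ≥0∞) : Prop := CP (MM p r)

theorem Dom.conv {w w' : ℤ → ℝ≥0∞} (hk : CP (kk w w')) (b : G) {p r : G → ℝ≥0∞}
    (h : Dom p r) : Dom (conv w b p) (LL.conv w' b r) := by
  obtain ⟨ι, c, U, hU⟩ := h
  obtain ⟨κ, d, u, hu⟩ := hk
  refine ⟨κ × ι, fun a => d a.1 * c a.2, fun a g => ∑' m : ℤ, u a.1 m * U a.2 (g - m • b), ?_⟩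
  intro g h
  rw [MM_conv, sum_parity w w' (fun m n => MM p r (g - m • b) (h - n • b))]
  simp only [hU, hu]
  rw [ENNReal.tsum_prod' (f := fun i : κ × ι => d i.1 * c i.2 *
    ((∑' m : ℤ, u i.1 m * U i.2 (g - m • b)) * ∑' m : ℤ, u i.1 m * U i.2 (h - m • b)))]
  simp only [← ENNReal.tsum_mul_left, ← ENNReal.tsum_mul_right]
  -- order: m n a i  versus  a i m n
  calc ∑' m : ℤ, ∑' n : ℤ, ∑' i : ι, ∑' a : κ,
        d a * (u a m * u a n) * (c i * (U i (g - m • b) * U i (h - n • b)))
      = ∑' m : ℤ, ∑' n : ℤ, ∑' a : κ, ∑' i : ι,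
        d a * (u a m * u a n) * (c i * (U i (g - m • b) * U i (h - n • b))) := by
        refine tsum_congr fun m => tsum_congr fun n => ?_
        rw [ENNReal.tsum_comm]
    _ = ∑' m : ℤ, ∑' a : κ, ∑' n : ℤ, ∑' i : ι,
        d a * (u a m * u a n) * (c i * (U i (g - m • b) * U i (h - n • b))) := by
        refine tsum_congr fun m => ?_
        rw [ENNReal.tsum_comm]
    _ = ∑' a : κ, ∑' m : ℤ, ∑' n : ℤ, ∑' i : ι,
        d a * (u a m * u a n) * (c i * (U i (g - m • b) * U i (h - n • b))) := by
        rw [ENNReal.tsum_comm]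
    _ = ∑' a : κ, ∑' m : ℤ, ∑' i : ι, ∑' n : ℤ,
        d a * (u a m * u a n) * (c i * (U i (g - m • b) * U i (h - n • b))) := by
        refine tsum_congr fun a => tsum_congr fun m => ?_
        rw [ENNReal.tsum_comm]
    _ = ∑' a : κ, ∑' i : ι, ∑' m : ℤ, ∑' n : ℤ,
        d a * (u a m * u a n) * (c i * (U i (g - m • b) * U i (h - n • b))) := by
        refine tsum_congr fun a => ?_
        rw [ENNReal.tsum_comm]
    _ = _ := by
        refine tsum_congr fun a => tsum_congr fun i => ?_
        rw [ENNReal.tsum_comm]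
        refine tsum_congr fun n => tsum_congr fun m => ?_
        ring

/-- The digit weight concentrated at zero. -/
noncomputable def dd (j : ℤ) : ℝ≥0∞ := if j = 0 then 1 else 0

theorem conv_dd (b : G) (p : G → ℝ≥0∞) : conv dd b p = p := by
  funext v
  unfold conv
  rw [tsum_eq_single (0 : ℤ)]
  · simp [dd]
  · intro j hj
    simp [dd, hj]

theorem CP_dd (w : ℤ → ℝ≥0∞) : CP (kk w dd) := by
  refine ⟨ℤ, w, fun i m => if m = i then 1 else 0, fun m n => ?_⟩
  rw [tsum_eq_single m]
  · by_cases h : m = n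
    · subst h
      have h1 : (m + m) / 2 = m := by omega
      simp [kk, dd, h1]
    · have hnm : ¬ n = m := fun e => h e.symm
      simp only [kk, dd, if_true, hnm, if_false, mul_zero]
      by_cases h2 : (m - n) % 2 = 0
      · have h3 : ¬ (m - n) / 2 = 0 := by omega
        simp [h2, h3]
      · simp [h2]
  · intro i hi
    have : ¬ m = i := fun e => hi e.symm
    simp [this]

theorem Dom.left (w : ℤ → ℝ≥0∞) (b : G) {p r : G → ℝ≥0∞} (h : Dom p r) :
    Dom (LL.conv w b p) r := by
  have := Dom.conv (CP_dd w) b h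
  rwa [conv_dd] at this

theorem Dom.dlt : Dom (dlt : G → ℝ≥0∞) dlt := by
  classical
  refine ⟨Unit, fun _ => 1, fun _ g => LL.dlt g, fun g h => ?_⟩
  rw [tsum_eq_single ()  (fun i hi => absurd (Subsingleton.elim i ()) hi), one_mul]
  unfold MM
  rw [tsum_eq_single (0 : G), tsum_eq_single (0 : G)]
  · by_cases hg : g = 0
    · by_cases hh : h = 0
      · subst hg; subst hh; simp [LL.dlt]
      · have : ¬ (0 : G) = h := fun e => hh e.symm
        simp [LL.dlt, hh, this]
    · have : ¬ (0 : G) = g := fun e => hg e.symm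
      simp [LL.dlt, hg, this]
  · intro t ht
    simp [LL.dlt, ht]
  · intro s hs
    simp [LL.dlt, hs]

theorem Dom.FF [DecidableEq G] {w w' : G → ℤ → ℝ≥0∞} {B : Finset G}
    (hk : ∀ b ∈ B, CP (kk (w b) (w' b))) {p r : G → ℝ≥0∞} (h : Dom p r) :
    Dom (FF w B p) (LL.FF w' B r) := by
  induction B using Finset.induction_on with
  | empty => simpa using h
  | insert c B hc ih =>
    rw [FF_insert w hc, FF_insert w' hc]
    exact Dom.conv (hk c (Finset.mem_insert_self _ _)) c
      (ih (fun b hb => hk b (Finset.mem_insert_of_mem hb)))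

theorem Dom.FF_left [DecidableEq G] {w : G → ℤ → ℝ≥0∞} {B : Finset G}
    {p r : G → ℝ≥0∞} (h : Dom p r) : Dom (LL.FF w B p) r := by
  induction B using Finset.induction_on with
  | empty => simpa using h
  | insert c B hc ih =>
    rw [FF_insert w hc]
    exact Dom.left _ c ih

/-- The domination inequality. -/
theorem Dom.le (h2 : ∀ x : G, x + x = 0 → x = 0) {p r : G → ℝ≥0∞} (h : Dom p r)
    (hp : ∀ v, p (-v) = p v) (v : G) : p 0 * r v ≤ p v * r 0 := by
  classical
  have key := CP.two_mul_le h v (-v)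
  have e1 : ∀ a : G, MM p r a a = p a * r 0 := by
    intro a
    unfold MM
    rw [tsum_eq_single a, tsum_eq_single (0 : G)]
    · simp
    · intro t ht
      have : ¬ (a + t = a ∧ a - t = a) := by
        rintro ⟨h1, -⟩
        exact ht (by simpa using h1)
      rw [if_neg this]
    · intro s hs
      rw [ENNReal.tsum_eq_zero]
      intro t
      have : ¬ (s + t = a ∧ s - t = a) := by
        rintro ⟨h1, h3⟩
        have ht : t + t = 0 := by
          have : (s + t) - (s - t) = a - a := by rw [h1, h3]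
          rw [sub_self] at this
          rw [← this]; abel
        have ht0 := h2 t ht
        subst ht0
        exact hs (by simpa using h1)
      simp [this]
  have e2 : MM p r v (-v) = p 0 * r v := by
    unfold MM
    rw [tsum_eq_single (0 : G), tsum_eq_single v]
    · simp
    · intro t ht
      have : ¬ (0 + t = v ∧ 0 - t = -v) := by
        rintro ⟨h1, -⟩
        exact ht (by simpa using h1)
      rw [if_neg this]
    · intro s hs
      rw [ENNReal.tsum_eq_zero]
      intro t
      have : ¬ (s + t = v ∧ s - t = -v) := by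
        rintro ⟨h1, h3⟩
        apply hs
        apply h2
        have : (s + t) + (s - t) = v + -v := by rw [h1, h3]
        rw [add_neg_cancel] at this
        rw [← this]; abel
      simp [this]
  rw [e1, e1, e2, hp] at key
  have h3 : 2 * (p 0 * r v) ≤ 2 * (p v * r 0) := by
    refine key.trans (le_of_eq ?_)
    ring
  exact (ENNReal.mul_le_mul_iff_right (by norm_num) (by norm_num)).1 h3

end Pool.Agent.Helper36.LL
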