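import Mathlib
import Pool.Agent.Helper36.LL.Dom

/-!
The digit weights used: Gaussian, Gaussian restricted to a parity class, ternary.
-/

set_option autoImplicit false

namespace Pool.Agent.Helper36.LL

open scoped ENNReal
open Finset

/-- Gaussian weights `x ^ (j ^ 2)`. -/
noncomputable def gw (x : ℝ≥0∞) (j : ℤ) : ℝ≥0∞ := x ^ (j.natAbs ^ 2)

/-- Gaussian weights on the integers congruent to `i` modulo two. -/
noncomputable def par (i : ℤ) (y : ℝ≥0∞) (j : ℤ) : ℝ≥0∞ :=
  if j % 2 = i then y ^ (j.natAbs ^ 2) else 0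

/-- Ternary weights. -/
noncomputable def tern (q : ℝ≥0∞) (j : ℤ) : ℝ≥0∞ :=
  if j = 0 then 1 else if j = 1 ∨ j = -1 then q else 0

theorem gw_neg (x : ℝ≥0∞) (j : ℤ) : gw x (-j) = gw x j := by simp [gw]

theorem par_neg (i : ℤ) (y : ℝ≥0∞) (j : ℤ) : par i y (-j) = par i y j := by
  have h : (-j) % 2 = i ↔ j % 2 = i := by omega
  unfold par
  rw [if_congr h rfl rfl, Int.natAbs_neg]

theorem tern_neg (q : ℝ≥0∞) (j : ℤ) : tern q (-j) = tern q j := by
  have h1 : (-j = 0) ↔ j = 0 := by omega
  have h2 : (-j = 1 ∨ -j = -1) ↔ (j = 1 ∨ j = -1) := by omega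
  unfold tern
  rw [if_congr h1 rfl (if_congr h2 rfl rfl)]

@[simp] theorem gw_zero (x : ℝ≥0∞) : gw x 0 = 1 := by simp [gw]

@[simp] theorem tern_zero (x : ℝ≥0∞) : tern x 0 = 1 := by simp [tern]

theorem nat_sq (a b : ℤ) :
    (a + b).natAbs ^ 2 + (a - b).natAbs ^ 2 = 2 * a.natAbs ^ 2 + 2 * b.natAbs ^ 2 := by
  zify
  simp only [sq_abs]
  ring

theorem kk_exp {m n : ℤ} (h : (m - n) % 2 = 0) :
    m.natAbs ^ 2 + n.natAbs ^ 2 = 2 * ((m + n) / 2).natAbs ^ 2 + 2 * ((m - n) / 2).natAbs ^ 2 := by
  rw [← nat_sq]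
  have h1 : (m + n) / 2 + (m - n) / 2 = m := by omega
  have h2 : (m + n) / 2 - (m - n) / 2 = n := by omega
  rw [h1, h2]

theorem pow_two_mul_pow (y : ℝ≥0∞) (a b : ℕ) : (y ^ 2) ^ a * (y ^ 2) ^ b = y ^ (2 * a + 2 * b) := by
  rw [← pow_mul, ← pow_mul, ← pow_add]

theorem CP_gg (y : ℝ≥0∞) : CP (kk (gw (y ^ 2)) (gw (y ^ 2))) := by
  refine ⟨ℤ, fun _ => 1, fun i m => if m % 2 = i then y ^ (m.natAbs ^ 2) else 0, fun m n => ?_⟩
  rw [tsum_eq_single (m % 2)]
  · by_cases h : (m - n) % 2 = 0
    · have h' : n % 2 = m % 2 := by omega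
      simp only [kk, if_pos h, gw, if_true, h', one_mul]
      rw [pow_two_mul_pow, ← kk_exp h, pow_add]
    · have h' : ¬ n % 2 = m % 2 := by omega
      simp [kk, h, h']
  · intro i hi
    have h' : ¬ m % 2 = i := fun e => hi e.symm
    simp [h']

theorem CP_par (i : ℤ) (z : ℝ≥0∞) : CP (kk (par i (z ^ 2)) (par 0 (z ^ 2))) := by
  refine ⟨ℤ, fun _ => 1,
    fun r m => if m % 4 = r ∧ m % 2 = i then z ^ (m.natAbs ^ 2) else 0, fun m n => ?_⟩
  rw [tsum_eq_single (m % 4)]
  · by_cases h : m % 4 = n % 4 ∧ m % 2 = i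
    · obtain ⟨h1, h2⟩ := h
      have e1 : (m - n) % 2 = 0 := by omega
      have e2 : ((m + n) / 2) % 2 = i := by omega
      have e3 : ((m - n) / 2) % 2 = 0 := by omega
      have e4 : n % 4 = m % 4 ∧ n % 2 = i := by omega
      have e5 : m % 4 = m % 4 ∧ m % 2 = i := ⟨rfl, h2⟩
      beta_reduce
      rw [if_pos e5, if_pos e4]
      simp only [kk, par, if_pos e1, if_pos e2, if_pos e3, one_mul]
      rw [pow_two_mul_pow, ← kk_exp e1, pow_add]
    · have hR : ((if m % 4 = m % 4 ∧ m % 2 = i then z ^ (m.natAbs ^ 2) else 0) *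
          (if n % 4 = m % 4 ∧ n % 2 = i then z ^ (n.natAbs ^ 2) else 0) : ℝ≥0∞) = 0 := by
        by_cases h1 : m % 4 = m % 4 ∧ m % 2 = i
        · have h2 : ¬ (n % 4 = m % 4 ∧ n % 2 = i) := by omega
          rw [if_neg h2, mul_zero]
        · rw [if_neg h1, zero_mul]
      rw [hR, mul_zero]
      unfold kk
      by_cases e1 : (m - n) % 2 = 0
      · rw [if_pos e1]
        unfold par
        by_cases e2 : ((m + n) / 2) % 2 = i
        · have e3 : ¬ ((m - n) / 2) % 2 = 0 := by omega
          rw [if_neg e3, mul_zero]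
        · rw [if_neg e2, zero_mul]
      · rw [if_neg e1]
  · intro r hr
    have h' : ¬ (m % 4 = r ∧ m % 2 = i) := fun e => hr e.1.symm
    simp [h']

theorem CP_tern (y : ℝ≥0∞) : CP (kk (gw (y ^ 2)) (tern (2⁻¹ * y ^ 2))) := by
  refine ⟨ℤ, fun _ => 2⁻¹, fun i m => if m = i then y ^ (m.natAbs ^ 2) else
    if m = i + 2 then y ^ (m.natAbs ^ 2) else 0, fun m n => ?_⟩
  have hne : m ≠ m - 2 := by omega
  rw [tsum_eq_sum (s := {m, m - 2})]
  · rw [Finset.sum_pair hne]
    have hm : m = m - 2 + 2 := by omega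
    have hm' : ¬ m = m - 2 := hne
    simp only [if_true, if_neg hm', if_pos hm]
    by_cases h0 : n = m
    · subst h0
      have e1 : (n - n) % 2 = 0 := by omega
      have e2 : (n + n) / 2 = n := by omega
      have e3 : (n - n) / 2 = 0 := by omega
      simp only [kk, if_pos e1, e2, e3, gw, tern_zero, mul_one, if_true, if_neg hm', if_pos hm]
      rw [← add_mul, ENNReal.inv_two_add_inv_two, one_mul, ← pow_mul, ← pow_add]
      congr 1
      ring
    · by_cases h1 : n = m + 2
      · subst h1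
        have e1 : (m - (m + 2)) % 2 = 0 := by omega
        have e2 : (m + (m + 2)) / 2 = m + 1 := by omega
        have e3 : (m - (m + 2)) / 2 = -1 := by omega
        have e4 : ¬ (m + 2 = m) := by omega
        have e5 : ¬ (m + 2 = m - 2) := by omega
        have e6 : ¬ (m + 2 = m - 2 + 2) := by omega
        have e7 : tern (2⁻¹ * y ^ 2) (-1) = 2⁻¹ * y ^ 2 := by simp [tern]
        simp only [kk, if_pos e1, e2, e3, gw, e7, if_neg e4, if_true, if_neg e5, if_neg e6, mul_zero,
          add_zero]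
        have e8 : m.natAbs ^ 2 + (m + 2).natAbs ^ 2 = 2 * (m + 1).natAbs ^ 2 + 2 := by
          have := nat_sq (m + 1) 1
          have a1 : m + 1 + 1 = m + 2 := by ring
          have a2 : m + 1 - 1 = m := by ring
          rw [a1, a2] at this
          simp at this
          omega
        rw [← pow_add, e8, pow_add, pow_mul]
        ring
      · by_cases h2 : n = m - 2
        · subst h2
          have e1 : (m - (m - 2)) % 2 = 0 := by omega
          have e2 : (m + (m - 2)) / 2 = m - 1 := by omega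
          have e3 : (m - (m - 2)) / 2 = 1 := by omega
          have e4 : ¬ (m - 2 = m) := by omega
          have e5 : ¬ (m - 2 = m + 2) := by omega
          have e7 : tern (2⁻¹ * y ^ 2) 1 = 2⁻¹ * y ^ 2 := by simp [tern]
          simp only [kk, if_pos e1, e2, e3, gw, e7, if_neg e4, if_true, if_neg e5, mul_zero,
            zero_add]
          have e8 : m.natAbs ^ 2 + (m - 2).natAbs ^ 2 = 2 * (m - 1).natAbs ^ 2 + 2 := by
            have := nat_sq (m - 1) 1
            have a1 : m - 1 + 1 = m := by ring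
            have a2 : m - 1 - 1 = m - 2 := by ring
            rw [a1, a2] at this
            simp at this
            omega
          rw [← pow_add, e8, pow_add, pow_mul]
          ring
        · have e4 : ¬ (n = m) := h0
          have e5 : ¬ (n = m + 2) := h1
          have e6 : ¬ (n = m - 2) := h2
          have e7 : ¬ (n = m - 2 + 2) := by omega
          simp only [if_neg e4, if_neg e5, if_neg e6, if_neg e7, mul_zero, add_zero]
          unfold kk
          by_cases e1 : (m - n) % 2 = 0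
          · rw [if_pos e1]
            have e8 : ¬ ((m - n) / 2 = 0) := by omega
            have e9 : ¬ ((m - n) / 2 = 1 ∨ (m - n) / 2 = -1) := by omega
            unfold tern
            rw [if_neg e8, if_neg e9, mul_zero]
          · rw [if_neg e1]
  · intro i hi
    simp only [Finset.mem_insert, Finset.mem_singleton, not_or] at hi
    have h1 : ¬ m = i := fun e => hi.1 e.symm
    have h2 : ¬ m = i + 2 := by omega
    simp [h1, h2]

end Pool.Agent.Helper36.LL
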