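import Mathlib
import Pool.Agent.Helper36.LL.Kern

/-!
The scaling inequality for Gaussian digit sums.
-/

set_option autoImplicit false

namespace Pool.Agent.Helper36.LL

open scoped ENNReal
open Finset

variable {G : Type*} [AddCommGroup G]

section

variable [DecidableEq G]

/-- Digit weights of the parity pattern `c`. -/
noncomputable def pw (y : ℝ≥0∞) (c : Finset G) (b : G) : ℤ → ℝ≥0∞ :=
  if b ∈ c then par 1 y else par 0 y

theorem kk_gw (y : ℝ≥0∞) (m n : ℤ) :
    kk (gw (y ^ 2)) (gw (y ^ 2)) m n = par 0 y m * par 0 y n + par 1 y m * par 1 y n := by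
  unfold par
  by_cases h : (m - n) % 2 = 0
  · have e : kk (gw (y ^ 2)) (gw (y ^ 2)) m n = y ^ (m.natAbs ^ 2) * y ^ (n.natAbs ^ 2) := by
      simp only [kk, if_pos h, gw]
      rw [pow_two_mul_pow, ← kk_exp h, pow_add]
    rw [e]
    by_cases hm : m % 2 = 0
    · have hn : n % 2 = 0 := by omega
      have hm1 : ¬ m % 2 = 1 := by omega
      rw [if_pos hm, if_pos hn, if_neg hm1]
      simp
    · have hm1 : m % 2 = 1 := by omega
      have hn : n % 2 = 1 := by omega
      rw [if_neg hm, if_pos hn, if_pos hm1]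
      simp
  · have e : kk (gw (y ^ 2)) (gw (y ^ 2)) m n = 0 := by
      simp only [kk, if_neg h]
    rw [e]
    by_cases hm : m % 2 = 0
    · have hn : ¬ n % 2 = 0 := by omega
      have hm1 : ¬ m % 2 = 1 := by omega
      rw [if_neg hn, if_neg hm1]
      simp
    · have hn : ¬ n % 2 = 1 := by omega
      rw [if_neg hm, if_neg hn]
      simp

theorem dlt_mul_dlt (h2 : ∀ x : G, x + x = 0 → x = 0) (s t : G) :
    dlt s * dlt t = dlt (s + t) * dlt (s - t) := by
  classical
  unfold dlt
  by_cases hs : s = 0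
  · subst hs
    by_cases ht : t = 0
    · subst ht; simp
    · simp [ht]
  · have : ¬ (s + t = 0 ∧ s - t = 0) := by
      rintro ⟨h1, h3⟩
      apply hs
      apply h2
      have : (s + t) + (s - t) = 0 := by rw [h1, h3, add_zero]
      rw [← this]; abel
    by_cases h1 : s + t = 0
    · have h3 : ¬ s - t = 0 := fun h => this ⟨h1, h⟩
      rw [if_neg hs, if_neg h3]; simp
    · rw [if_neg hs, if_neg h1]; simp

/-- The product of two Gaussian digit sums as a sum over parity patterns. -/
theorem prod_id (h2 : ∀ x : G, x + x = 0 → x = 0) (y : ℝ≥0∞) (B : Finset G) : ∀ s t : G,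
    F (fun _ : G => gw (y ^ 2)) B s * F (fun _ : G => gw (y ^ 2)) B t
      = ∑ c ∈ B.powerset, F (pw y c) B (s + t) * F (pw y c) B (s - t) := by
  induction B using Finset.induction_on with
  | empty =>
    intro s t
    simp only [F_empty, Finset.powerset_empty, Finset.sum_singleton]
    exact dlt_mul_dlt h2 s t
  | insert b B hb ih =>
    intro s t
    set P : G → ℝ≥0∞ := F (fun _ : G => gw (y ^ 2)) B with hP
    set Φ : ℤ → ℤ → ℝ≥0∞ := fun m n =>
      ∑ c ∈ B.powerset, F (pw y c) B (s + t - m • b) * F (pw y c) B (s - t - n • b) with hΦ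
    have e1 : F (fun _ : G => gw (y ^ 2)) (insert b B) s * F (fun _ : G => gw (y ^ 2)) (insert b B) t
        = ∑' j, ∑' l, gw (y ^ 2) j * gw (y ^ 2) l * Φ (j + l) (j - l) := by
      rw [F_insert _ hb]
      unfold conv
      rw [← ENNReal.tsum_mul_right]
      refine tsum_congr fun j => ?_
      rw [← ENNReal.tsum_mul_left]
      refine tsum_congr fun l => ?_
      have e2 : P (s - j • b) * P (t - l • b) = Φ (j + l) (j - l) := by
        rw [hP, ih, hΦ]
        refine Finset.sum_congr rfl fun c _ => ?_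
        have a1 : s - j • b + (t - l • b) = s + t - (j + l) • b := by rw [add_smul]; abel
        have a2 : s - j • b - (t - l • b) = s - t - (j - l) • b := by rw [sub_smul]; abel
        rw [a1, a2]
      rw [← e2]
      ring
    rw [e1, sum_parity, Finset.sum_powerset_insert hb]
    have e3 : ∀ m n : ℤ, kk (gw (y ^ 2)) (gw (y ^ 2)) m n * Φ m n
        = ∑ c ∈ B.powerset, ((par 0 y m * F (pw y c) B (s + t - m • b)) *
            (par 0 y n * F (pw y c) B (s - t - n • b))
          + (par 1 y m * F (pw y c) B (s + t - m • b)) *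
            (par 1 y n * F (pw y c) B (s - t - n • b))) := by
      intro m n
      rw [kk_gw, hΦ, Finset.mul_sum]
      refine Finset.sum_congr rfl fun c _ => ?_
      ring
    simp only [e3]
    have e4 : ∀ i : ℤ, ∀ c : Finset G, ∑' m : ℤ, ∑' n : ℤ,
        (par i y m * F (pw y c) B (s + t - m • b)) * (par i y n * F (pw y c) B (s - t - n • b))
        = conv (par i y) b (F (pw y c) B) (s + t) * conv (par i y) b (F (pw y c) B) (s - t) := by
      intro i c
      unfold conv
      rw [← ENNReal.tsum_mul_right]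
      refine tsum_congr fun m => ?_
      rw [← ENNReal.tsum_mul_left]
    have e5 : ∑' m : ℤ, ∑' n : ℤ, ∑ c ∈ B.powerset,
        ((par 0 y m * F (pw y c) B (s + t - m • b)) * (par 0 y n * F (pw y c) B (s - t - n • b))
          + (par 1 y m * F (pw y c) B (s + t - m • b)) * (par 1 y n * F (pw y c) B (s - t - n • b)))
        = ∑ c ∈ B.powerset,
          (conv (par 0 y) b (F (pw y c) B) (s + t) * conv (par 0 y) b (F (pw y c) B) (s - t)
          + conv (par 1 y) b (F (pw y c) B) (s + t) * conv (par 1 y) b (F (pw y c) B) (s - t)) := by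
      calc _ = ∑' m : ℤ, ∑ c ∈ B.powerset, ∑' n : ℤ,
          ((par 0 y m * F (pw y c) B (s + t - m • b)) * (par 0 y n * F (pw y c) B (s - t - n • b))
          + (par 1 y m * F (pw y c) B (s + t - m • b)) *
            (par 1 y n * F (pw y c) B (s - t - n • b))) := by
            refine tsum_congr fun m => ?_
            exact Summable.tsum_finsetSum (fun c _ => ENNReal.summable)
        _ = ∑ c ∈ B.powerset, ∑' m : ℤ, ∑' n : ℤ,
          ((par 0 y m * F (pw y c) B (s + t - m • b)) * (par 0 y n * F (pw y c) B (s - t - n • b))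
          + (par 1 y m * F (pw y c) B (s + t - m • b)) *
            (par 1 y n * F (pw y c) B (s - t - n • b))) :=
            Summable.tsum_finsetSum (fun c _ => ENNReal.summable)
        _ = _ := by
            refine Finset.sum_congr rfl fun c _ => ?_
            rw [← e4, ← e4, ← ENNReal.tsum_add]
            refine tsum_congr fun m => ?_
            rw [← ENNReal.tsum_add]
    rw [e5, Finset.sum_add_distrib]
    congr 1
    · refine Finset.sum_congr rfl fun c hc => ?_
      have hbc : b ∉ c := fun h => hb (Finset.mem_powerset.1 hc h)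
      have e6 : F (pw y c) (insert b B) = conv (par 0 y) b (F (pw y c) B) := by
        rw [F_insert _ hb]
        simp only [pw, if_neg hbc]
      rw [e6]
    · refine Finset.sum_congr rfl fun c hc => ?_
      have e6 : F (pw y (insert b c)) (insert b B) = conv (par 1 y) b (F (pw y c) B) := by
        rw [F_insert _ hb]
        have e7 : pw y (insert b c) b = par 1 y := by
          simp [pw]
        have e8 : F (pw y (insert b c)) B = F (pw y c) B := by
          refine F_congr fun b' hb' => ?_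
          have hne : b' ≠ b := by rintro rfl; exact hb hb'
          simp [pw, hne]
        rw [e7, e8]
      rw [e6]

/-- Even digits at a doubled point. -/
theorem even_id (h2 : ∀ x : G, x + x = 0 → x = 0) (y : ℝ≥0∞) (B : Finset G) : ∀ v : G,
    F (fun _ : G => par 0 y) B (v + v) = F (fun _ : G => gw (y ^ 4)) B v := by
  induction B using Finset.induction_on with
  | empty =>
    intro v
    simp only [F_empty]
    unfold dlt
    by_cases hv : v = 0
    · simp [hv]
    · have : ¬ v + v = 0 := fun h => hv (h2 v h)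
      simp [hv, this]
  | insert b B hb ih =>
    intro v
    rw [F_insert _ hb, F_insert _ hb]
    unfold conv
    have hinj : Function.Injective (fun i : ℤ => 2 * i) := by
      intro a c h
      simp only at h
      omega
    rw [← hinj.tsum_eq]
    · refine tsum_congr fun i => ?_
      rw [← ih]
      have a1 : v + v - (2 * i) • b = v - i • b + (v - i • b) := by
        rw [two_mul, add_smul]; abel
      rw [a1]
      congr 1
      have a2 : (2 * i) % 2 = 0 := by omega
      have a3 : (2 * i).natAbs ^ 2 = 4 * i.natAbs ^ 2 := by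
        rw [Int.natAbs_mul, mul_pow]; rfl
      simp only [par, if_pos a2, gw]
      rw [a3, pow_mul]
    · intro j hj
      have h0 : j % 2 = 0 := by
        by_contra h0
        apply hj
        simp [par, h0]
      exact ⟨j / 2, by simp only; omega⟩

/-- The scaling inequality. -/
theorem scale (h2 : ∀ x : G, x + x = 0 → x = 0) (z : ℝ≥0∞) (B : Finset G) (v : G) :
    F (fun _ : G => gw (z ^ 8)) B v * (F (fun _ : G => gw (z ^ 4)) B 0) ^ 2
      ≤ (F (fun _ : G => gw (z ^ 4)) B v) ^ 2 * F (fun _ : G => gw (z ^ 8)) B 0 := by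
  have z4 : z ^ 4 = (z ^ 2) ^ 2 := by ring
  have z8 : z ^ 8 = (z ^ 2) ^ 4 := by ring
  rw [z4, z8, ← even_id h2, ← even_id h2, add_zero]
  set P : G → ℝ≥0∞ := F (fun _ : G => par 0 (z ^ 2)) B with hP
  have p1 : (F (fun _ : G => gw ((z ^ 2) ^ 2)) B 0) ^ 2
      = ∑ c ∈ B.powerset, F (pw (z ^ 2) c) B 0 * F (pw (z ^ 2) c) B 0 := by
    rw [sq, prod_id h2, add_zero, sub_zero]
  have p2 : (F (fun _ : G => gw ((z ^ 2) ^ 2)) B v) ^ 2
      = ∑ c ∈ B.powerset, F (pw (z ^ 2) c) B (v + v) * F (pw (z ^ 2) c) B 0 := by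
    rw [sq, prod_id h2, sub_self]
  rw [p1, p2, Finset.mul_sum, Finset.sum_mul]
  refine Finset.sum_le_sum fun c _ => ?_
  have hD : Dom (F (pw (z ^ 2) c) B) P := by
    refine Dom.FF (fun b _ => ?_) Dom.dlt
    unfold pw
    split_ifs
    · exact CP_par 1 z
    · exact CP_par 0 z
  have hs : ∀ v, F (pw (z ^ 2) c) B (-v) = F (pw (z ^ 2) c) B v := by
    refine F_neg fun b _ j => ?_
    unfold pw
    split_ifs
    · exact par_neg _ _ _
    · exact par_neg _ _ _
  have := Dom.le h2 hD hs (v + v)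
  calc P (v + v) * (F (pw (z ^ 2) c) B 0 * F (pw (z ^ 2) c) B 0)
      = (F (pw (z ^ 2) c) B 0 * P (v + v)) * F (pw (z ^ 2) c) B 0 := by ring
    _ ≤ (F (pw (z ^ 2) c) B (v + v) * P 0) * F (pw (z ^ 2) c) B 0 := by gcongr
    _ = _ := by ring

end

/-! ### finiteness -/

theorem tsum_gw_le {x : ℝ≥0∞} (hx : x ≤ 1) : ∑' j : ℤ, gw x j ≤ 2 * (1 - x)⁻¹ := by
  have h1 : ∀ j : ℤ, gw x j ≤ x ^ j.natAbs := by
    intro j
    unfold gw
    refine pow_le_pow_right_of_le_one' hx ?_
    nlinarith [Nat.zero_le j.natAbs]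
  refine (ENNReal.tsum_le_tsum h1).trans ?_
  rw [tsum_of_nat_of_neg_add_one ENNReal.summable ENNReal.summable]
  have h3 : ∑' n : ℕ, x ^ (n : ℤ).natAbs = (1 - x)⁻¹ := by
    simp only [Int.natAbs_natCast]
    exact ENNReal.tsum_geometric x
  have h4 : ∑' n : ℕ, x ^ (-((n : ℤ) + 1)).natAbs ≤ (1 - x)⁻¹ := by
    rw [← ENNReal.tsum_geometric x]
    refine ENNReal.tsum_le_tsum fun n => ?_
    refine pow_le_pow_right_of_le_one' hx ?_
    omega
  rw [h3, two_mul]
  gcongr

theorem F_ne_top [DecidableEq G] {x : ℝ≥0∞} (hx : x < 1) (B : Finset G) (v : G) :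
    F (fun _ : G => gw x) B v ≠ ∞ := by
  refine ne_top_of_le_ne_top ?_ (F_le_mass _ B v)
  refine ENNReal.pow_ne_top ?_
  refine ne_top_of_le_ne_top ?_ (tsum_gw_le hx.le)
  refine ENNReal.mul_ne_top (by norm_num) ?_
  rw [ENNReal.inv_ne_top]
  exact (tsub_pos_of_lt hx).ne'

section

variable [DecidableEq G]

theorem gw_F_ge (x : ℝ≥0∞) (B : Finset G) : 1 ≤ F (fun _ : G => gw x) B 0 :=
  F_zero_ge fun _ _ => gw_zero x

/-- One step of the scaling. -/
theorem scale_step (h2 : ∀ x : G, x + x = 0 → x = 0) {z a : ℝ≥0∞} (hz : z < 1) (B : Finset G) (v : G)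
    (h : a * F (fun _ : G => gw (z ^ 4)) B v ≤ F (fun _ : G => gw (z ^ 4)) B 0) :
    a ^ 2 * F (fun _ : G => gw ((z ^ 2) ^ 4)) B v ≤ F (fun _ : G => gw ((z ^ 2) ^ 4)) B 0 := by
  have z8 : (z ^ 2) ^ 4 = z ^ 8 := by ring
  rw [z8]
  have key := scale h2 z B v
  have h4 : z ^ 4 < 1 := pow_lt_one' hz (by norm_num)
  set W := F (fun _ : G => gw (z ^ 4)) B 0 with hW
  set w := F (fun _ : G => gw (z ^ 4)) B v with hw
  set W' := F (fun _ : G => gw (z ^ 8)) B 0 with hW'
  set w' := F (fun _ : G => gw (z ^ 8)) B v with hw'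
  have hWt : W ≠ ∞ := F_ne_top h4 B 0
  have hW1 : 1 ≤ W := gw_F_ge _ B
  have hW0 : W ^ 2 ≠ 0 := by
    have : 0 < W := lt_of_lt_of_le one_pos hW1
    exact pow_ne_zero 2 this.ne'
  have hW2t : W ^ 2 ≠ ∞ := ENNReal.pow_ne_top hWt
  have h3 : W ^ 2 * (a ^ 2 * w') ≤ W ^ 2 * W' := by
    calc W ^ 2 * (a ^ 2 * w') = a ^ 2 * (w' * W ^ 2) := by ring
      _ ≤ a ^ 2 * (w ^ 2 * W') := by gcongr
      _ = (a * w) ^ 2 * W' := by ring
      _ ≤ W ^ 2 * W' := by gcongr
  exact (ENNReal.mul_le_mul_iff_right hW0 hW2t).1 h3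

/-- Iterated scaling. -/
theorem scale_iter (h2 : ∀ x : G, x + x = 0 → x = 0) {z a : ℝ≥0∞} (hz : z < 1) (B : Finset G) (v : G)
    (h : a * F (fun _ : G => gw (z ^ 4)) B v ≤ F (fun _ : G => gw (z ^ 4)) B 0) (K : ℕ) :
    a ^ (2 ^ K) * F (fun _ : G => gw ((z ^ (2 ^ K)) ^ 4)) B v
      ≤ F (fun _ : G => gw ((z ^ (2 ^ K)) ^ 4)) B 0 := by
  induction K with
  | zero => simpa using h
  | succ K ih =>
    have h1 : z ^ (2 ^ (K + 1)) = (z ^ (2 ^ K)) ^ 2 := by
      rw [← pow_mul, pow_succ]
    have h3 : a ^ (2 ^ (K + 1)) = (a ^ (2 ^ K)) ^ 2 := by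
      rw [← pow_mul, pow_succ]
    rw [h1, h3]
    have hz' : z ^ (2 ^ K) < 1 := pow_lt_one' hz (by positivity)
    exact scale_step h2 hz' B v ih

end

end Pool.Agent.Helper36.LL
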