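import Mathlib
import Pool.Agent.Helper36.LL.Scale
import Pool.Agent.Helper80.SU.Base

/-!
The size bound: a dissociated set spanned by `B` has at most `2 (K + 2) |B|` elements.
-/

set_option autoImplicit false

namespace Pool.Agent.Helper36.LL

open scoped ENNReal
open Finset
open Pool.Agent.Helper80.SU (Diss)

variable {G : Type*} [AddCommGroup G]

theorem conv_tern (q : ℝ≥0∞) (b : G) (p : G → ℝ≥0∞) (v : G) :
    conv (tern q) b p v = p v + q * (p (v - b) + p (v + b)) := by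
  unfold conv
  rw [tsum_eq_sum (s := {0, 1, -1})]
  · rw [Finset.sum_insert (by decide), Finset.sum_pair (by decide)]
    have t1 : tern q 1 = q := by simp [tern]
    have t2 : tern q (-1) = q := by simp [tern]
    rw [tern_zero, t1, t2, zero_smul, sub_zero, one_smul, neg_smul, one_smul, sub_neg_eq_add]
    ring
  · intro j hj
    simp only [Finset.mem_insert, Finset.mem_singleton, not_or] at hj
    simp [tern, hj.1, hj.2.1, hj.2.2]

variable [DecidableEq G]

theorem two_pow_FF (D : Finset G) (p : G → ℝ≥0∞) : ∀ v : G,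
    2 ^ D.card * FF (fun _ : G => tern 2⁻¹) D p v
      = ∑ X ∈ D.powerset, ∑ Y ∈ D.powerset, p (v - ∑ x ∈ X, x + ∑ y ∈ Y, y) := by
  induction D using Finset.induction_on with
  | empty => intro v; simp
  | insert d D hd ih =>
    intro v
    have e1 : (2 : ℝ≥0∞) ^ (insert d D).card * FF (fun _ : G => tern 2⁻¹) (insert d D) p v
        = 2 * (2 ^ D.card * FF (fun _ : G => tern 2⁻¹) D p v)
          + (2 ^ D.card * FF (fun _ : G => tern 2⁻¹) D p (v - d)
            + 2 ^ D.card * FF (fun _ : G => tern 2⁻¹) D p (v + d)) := by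
      rw [FF_insert _ hd, conv_tern, Finset.card_insert_of_notMem hd, pow_succ]
      set a := FF (fun _ : G => tern 2⁻¹) D p v
      set b := FF (fun _ : G => tern 2⁻¹) D p (v - d)
      set c := FF (fun _ : G => tern 2⁻¹) D p (v + d)
      have h : (2 : ℝ≥0∞) * 2⁻¹ = 1 := ENNReal.mul_inv_cancel (by norm_num) (by norm_num)
      calc (2 : ℝ≥0∞) ^ D.card * 2 * (a + 2⁻¹ * (b + c))
          = 2 * (2 ^ D.card * a) + (2 * 2⁻¹) * (2 ^ D.card * b + 2 ^ D.card * c) := by ring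
        _ = _ := by rw [h, one_mul]
    rw [e1, ih, ih, ih]
    have hX : ∀ X ∈ D.powerset, ∑ x ∈ insert d X, x = d + ∑ x ∈ X, x := by
      intro X hX
      exact Finset.sum_insert (fun h => hd (Finset.mem_powerset.1 hX h))
    rw [Finset.sum_powerset_insert hd]
    have e2 : ∀ X : Finset G, ∑ Y ∈ (insert d D).powerset, p (v - ∑ x ∈ X, x + ∑ y ∈ Y, y)
        = ∑ Y ∈ D.powerset, p (v - ∑ x ∈ X, x + ∑ y ∈ Y, y)
          + ∑ Y ∈ D.powerset, p (v + d - ∑ x ∈ X, x + ∑ y ∈ Y, y) := by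
      intro X
      rw [Finset.sum_powerset_insert hd]
      congr 1
      refine Finset.sum_congr rfl fun Y hY => ?_
      rw [hX Y hY]
      congr 1
      abel
    simp only [e2]
    have e3 : ∑ X ∈ D.powerset, (∑ Y ∈ D.powerset, p (v - ∑ x ∈ insert d X, x + ∑ y ∈ Y, y)
          + ∑ Y ∈ D.powerset, p (v + d - ∑ x ∈ insert d X, x + ∑ y ∈ Y, y))
        = ∑ X ∈ D.powerset, (∑ Y ∈ D.powerset, p (v - d - ∑ x ∈ X, x + ∑ y ∈ Y, y)
          + ∑ Y ∈ D.powerset, p (v - ∑ x ∈ X, x + ∑ y ∈ Y, y)) := by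
      refine Finset.sum_congr rfl fun X hX' => ?_
      congr 1
      · refine Finset.sum_congr rfl fun Y _ => ?_
        rw [hX X hX']
        congr 1
        abel
      · refine Finset.sum_congr rfl fun Y _ => ?_
        rw [hX X hX']
        congr 1
        abel
    rw [e3, Finset.sum_add_distrib, Finset.sum_add_distrib]
    ring

/-- Upper bound by the total mass. -/
theorem FF_le_mass {D : Finset G} (hD : Diss D) (p : G → ℝ≥0∞) :
    FF (fun _ : G => tern 2⁻¹) D p 0 ≤ ∑' g, p g := by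
  have h1 := two_pow_FF D p 0
  have h3 : ∑ X ∈ D.powerset, ∑ Y ∈ D.powerset, p (0 - ∑ x ∈ X, x + ∑ y ∈ Y, y)
      ≤ 2 ^ D.card * ∑' g, p g := by
    rw [Finset.sum_comm]
    calc ∑ Y ∈ D.powerset, ∑ X ∈ D.powerset, p (0 - ∑ x ∈ X, x + ∑ y ∈ Y, y)
        ≤ ∑ Y ∈ D.powerset, ∑' g, p g := by
          refine Finset.sum_le_sum fun Y _ => ?_
          have hinj : Set.InjOn (fun X : Finset G => 0 - ∑ x ∈ X, x + ∑ y ∈ Y, y)
              (D.powerset : Set (Finset G)) := by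
            intro X hX X' hX' h
            simp only [zero_sub, add_left_inj, neg_inj] at h
            exact hD X X' (Finset.mem_powerset.1 (Finset.mem_coe.1 hX))
              (Finset.mem_powerset.1 (Finset.mem_coe.1 hX')) h
          rw [← Finset.sum_image (f := p)
            (g := fun X : Finset G => 0 - ∑ x ∈ X, x + ∑ y ∈ Y, y) hinj]
          exact ENNReal.sum_le_tsum _
      _ = 2 ^ D.card * ∑' g, p g := by
          rw [Finset.sum_const, Finset.card_powerset, nsmul_eq_mul]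
          push_cast
          ring
  rw [← h1] at h3
  exact (ENNReal.mul_le_mul_iff_right (pow_ne_zero _ (by norm_num))
    (ENNReal.pow_ne_top (by norm_num))).1 h3

/-- Adding spanned elements multiplies the mass at zero by at least `3 / 2`. -/
theorem lower (h2 : ∀ x : G, x + x = 0 → x = 0) {z : ℝ≥0∞} (hz : z < 1) (B D : Finset G)
    (hs : ∀ v ∈ D, F (fun _ : G => gw (z ^ 2)) B 0 ≤ 2 * F (fun _ : G => gw (z ^ 2)) B v) :
    3 ^ D.card * F (fun _ : G => gw (z ^ 2)) B 0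
      ≤ 2 ^ D.card * FF (fun _ : G => tern 2⁻¹) D (F (fun _ : G => gw (z ^ 2)) B) 0 := by
  have hz2 : z ^ 2 < 1 := pow_lt_one' hz (by norm_num)
  induction D using Finset.induction_on with
  | empty => simp
  | insert d D hd ih =>
    have ih' := ih (fun v hv => hs v (Finset.mem_insert_of_mem hv))
    set p0 := F (fun _ : G => gw (z ^ 2)) B with hp0
    set p := FF (fun _ : G => tern 2⁻¹) D p0 with hp
    have hsym0 : ∀ v, p0 (-v) = p0 v := F_neg fun _ _ j => gw_neg _ j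
    have hsym : ∀ v, p (-v) = p v := FF_neg (fun _ _ j => tern_neg _ j) hsym0
    have hD0 : Dom p0 p0 := Dom.FF (fun _ _ => CP_gg z) Dom.dlt
    have hDom : Dom p p0 := Dom.FF_left hD0
    have h1 := Dom.le h2 hDom hsym d
    have hd1 := hs d (Finset.mem_insert_self _ _)
    have hp00 : 1 ≤ p0 0 := gw_F_ge _ B
    have hpd0 : p0 d ≠ 0 := by
      intro h0
      rw [h0, mul_zero] at hd1
      exact absurd (hp00.trans hd1) (by norm_num)
    have hpdt : p0 d ≠ ∞ := F_ne_top hz2 B d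
    have h3 : p 0 ≤ 2 * p d := by
      have : p0 d * p 0 ≤ p0 d * (2 * p d) := by
        calc p0 d * p 0 = p 0 * p0 d := by ring
          _ ≤ p d * p0 0 := h1
          _ ≤ p d * (2 * p0 d) := by gcongr
          _ = _ := by ring
      exact (ENNReal.mul_le_mul_iff_right hpd0 hpdt).1 this
    have e1 : (2 : ℝ≥0∞) ^ (insert d D).card * FF (fun _ : G => tern 2⁻¹) (insert d D) p0 0
        = 2 ^ D.card * (2 * p 0 + 2 * p d) := by
      rw [FF_insert _ hd, conv_tern, Finset.card_insert_of_notMem hd, pow_succ, ← hp, zero_sub,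
        zero_add, hsym]
      have h : (2 : ℝ≥0∞) * 2⁻¹ = 1 := ENNReal.mul_inv_cancel (by norm_num) (by norm_num)
      calc (2 : ℝ≥0∞) ^ D.card * 2 * (p 0 + 2⁻¹ * (p d + p d))
          = 2 ^ D.card * (2 * p 0 + (2 * 2⁻¹) * (2 * p d)) := by ring
        _ = _ := by rw [h, one_mul]
    rw [e1, Finset.card_insert_of_notMem hd, pow_succ]
    calc (3 : ℝ≥0∞) ^ D.card * 3 * p0 0 = 3 * (3 ^ D.card * p0 0) := by ring
      _ ≤ 3 * (2 ^ D.card * p 0) := by gcongr
      _ = 2 ^ D.card * (2 * p 0 + p 0) := by ring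
      _ ≤ 2 ^ D.card * (2 * p 0 + 2 * p d) := by gcongr

theorem inv_step {y : ℝ≥0∞} (hy : y ≤ 1) : (1 - y)⁻¹ ≤ 2 * (1 - y ^ 2)⁻¹ := by
  obtain ⟨t, ht⟩ := exists_add_of_le hy
  have hyt : y ≠ ∞ := ne_top_of_le_ne_top ENNReal.one_ne_top hy
  have e1 : 1 - y = t := by
    rw [ht, ENNReal.add_sub_cancel_left hyt]
  have h1 : 1 - y ^ 2 ≤ 2 * t := by
    rw [tsub_le_iff_right]
    calc (1 : ℝ≥0∞) = (y + t) * (y + t) := by rw [← ht, one_mul]
      _ = t * (2 * y + t) + y ^ 2 := by ring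
      _ ≤ t * (2 * y + 2 * t) + y ^ 2 := by
          gcongr
          calc t = 1 * t := by ring
            _ ≤ 2 * t := by gcongr; norm_num
      _ = t * (2 * (y + t)) + y ^ 2 := by ring
      _ = 2 * t + y ^ 2 := by rw [← ht]; ring
  rw [e1]
  have h2 : (2 * t)⁻¹ ≤ (1 - y ^ 2)⁻¹ := ENNReal.inv_le_inv.2 h1
  calc t⁻¹ = (2 * 2⁻¹) * t⁻¹ := by
        rw [ENNReal.mul_inv_cancel (by norm_num) (by norm_num), one_mul]
    _ = 2 * (2 * t)⁻¹ := by
        rw [ENNReal.mul_inv (Or.inl (by norm_num)) (Or.inl (by norm_num))]; ring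
    _ ≤ _ := by gcongr

theorem inv_le {K : ℕ} : ∀ {y : ℝ≥0∞}, y ≤ 1 → y ^ (2 ^ K) = 2⁻¹ → (1 - y)⁻¹ ≤ 2 ^ (K + 1) := by
  induction K with
  | zero =>
    intro y _ h
    rw [pow_zero, pow_one] at h
    rw [h, ENNReal.one_sub_inv_two, inv_inv]
    norm_num
  | succ K ih =>
    intro y hy h
    have h1 := ih (y := y ^ 2) (pow_le_one' hy 2) (by rw [← pow_mul, ← pow_succ']; exact h)
    calc (1 - y)⁻¹ ≤ 2 * (1 - y ^ 2)⁻¹ := inv_step hy
      _ ≤ 2 * 2 ^ (K + 1) := by gcongr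
      _ = _ := by ring

theorem tsum_gw_le_pow {K : ℕ} {y : ℝ≥0∞} (hy1 : y ≤ 1) (hy : y ^ (2 ^ K) = 2⁻¹) :
    ∑' j : ℤ, gw y j ≤ 2 ^ (K + 2) := by
  refine (tsum_gw_le hy1).trans ?_
  calc 2 * (1 - y)⁻¹ ≤ 2 * 2 ^ (K + 1) := by gcongr; exact inv_le hy1 hy
    _ = _ := by ring

/-- The size bound. -/
theorem size_le (h2 : ∀ x : G, x + x = 0 → x = 0) {K : ℕ} {z : ℝ≥0∞} (hz : z < 1)
    (hy : (z ^ 2) ^ (2 ^ K) = 2⁻¹) {B D : Finset G} (hD : Diss D)
    (hs : ∀ v ∈ D, F (fun _ : G => gw (z ^ 2)) B 0 ≤ 2 * F (fun _ : G => gw (z ^ 2)) B v) :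
    D.card ≤ 2 * (K + 2) * B.card := by
  have h1 := lower h2 hz B D hs
  have h3 := FF_le_mass hD (F (fun _ : G => gw (z ^ 2)) B)
  rw [F_mass] at h3
  have hV := tsum_gw_le_pow (pow_le_one' hz.le 2) hy
  have h4 : (3 : ℝ≥0∞) ^ D.card ≤ 2 ^ D.card * (2 ^ (K + 2)) ^ B.card := by
    calc (3 : ℝ≥0∞) ^ D.card ≤ 3 ^ D.card * F (fun _ : G => gw (z ^ 2)) B 0 := by
          calc (3 : ℝ≥0∞) ^ D.card = 3 ^ D.card * 1 := by ring
            _ ≤ _ := by gcongr; exact gw_F_ge _ B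
      _ ≤ 2 ^ D.card * FF (fun _ : G => tern 2⁻¹) D (F (fun _ : G => gw (z ^ 2)) B) 0 := h1
      _ ≤ 2 ^ D.card * (∑' j, gw (z ^ 2) j) ^ B.card := by gcongr
      _ ≤ _ := by gcongr
  have h5 : (3 : ℕ) ^ D.card ≤ 2 ^ D.card * (2 ^ (K + 2)) ^ B.card := by exact_mod_cast h4
  rw [← pow_mul, ← pow_add] at h5
  have h6 : (2 : ℕ) ^ (3 * D.card) ≤ 2 ^ (2 * (D.card + (K + 2) * B.card)) := by
    calc (2 : ℕ) ^ (3 * D.card) = 8 ^ D.card := by rw [pow_mul]; norm_num
      _ ≤ 9 ^ D.card := Nat.pow_le_pow_left (by norm_num) _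
      _ = (3 ^ D.card) ^ 2 := by rw [← pow_mul, mul_comm, pow_mul]; norm_num
      _ ≤ (2 ^ (D.card + (K + 2) * B.card)) ^ 2 := Nat.pow_le_pow_left h5 2
      _ = _ := by rw [← pow_mul, mul_comm]
  have h7 := (Nat.pow_le_pow_iff_right (by norm_num : 1 < 2)).1 h6
  nlinarith

end Pool.Agent.Helper36.LL
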