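import Mathlib
import Pool.Agent.Helper36.LL.Size

/-!
Four colours: a set with few relations is a union of four dissociated sets.
-/

set_option autoImplicit false

namespace Pool.Agent.Helper36.LL

open scoped ENNReal
open Finset
open Pool.Agent.Helper80.SU (Diss)

variable {G : Type*} [AddCommGroup G]

/-- The ternary weight `1 / 4` is a mixture. -/
theorem conv_mix (b : G) (p : G → ℝ≥0∞) (v : G) :
    4 * conv (tern 4⁻¹) b p v = conv (tern 1) b p v + 3 * p v := by
  rw [conv_tern, conv_tern]
  have h : (4 : ℝ≥0∞) * 4⁻¹ = 1 := ENNReal.mul_inv_cancel (by norm_num) (by norm_num)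
  calc 4 * (p v + 4⁻¹ * (p (v - b) + p (v + b)))
      = 4 * p v + (4 * 4⁻¹) * (p (v - b) + p (v + b)) := by ring
    _ = p v + 1 * (p (v - b) + p (v + b)) + 3 * p v := by rw [h]; ring

variable [DecidableEq G]

theorem FF_add (w : G → ℤ → ℝ≥0∞) (B : Finset G) (p r : G → ℝ≥0∞) (c d : ℝ≥0∞) :
    ∀ v, FF w B (fun g => c * p g + d * r g) v = c * FF w B p v + d * FF w B r v := by
  induction B using Finset.induction_on with
  | empty => intro v; simp
  | insert b B hb ih =>
    intro v
    have e : FF w B (fun g => c * p g + d * r g) = fun g => c * FF w B p g + d * FF w B r g :=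
      funext ih
    rw [FF_insert w hb, FF_insert w hb, FF_insert w hb, e]
    unfold conv
    rw [← ENNReal.tsum_mul_left, ← ENNReal.tsum_mul_left, ← ENNReal.tsum_add]
    refine tsum_congr fun j => ?_
    ring

theorem FF_mix (b : G) (B : Finset G) (p : G → ℝ≥0∞) :
    4 * FF (fun _ : G => tern 4⁻¹) B (conv (tern 4⁻¹) b p) 0
      = FF (fun _ : G => tern 4⁻¹) B (conv (tern 1) b p) 0
        + 3 * FF (fun _ : G => tern 4⁻¹) B p 0 := by
  have h1 := FF_add (fun _ : G => tern 4⁻¹) B (conv (tern 4⁻¹) b p) (fun _ => 0) 4 0 0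
  have h2 := FF_add (fun _ : G => tern 4⁻¹) B (conv (tern 1) b p) p 1 3 0
  have e : (fun g => (4 : ℝ≥0∞) * conv (tern 4⁻¹) b p g + 0 * (fun _ => (0 : ℝ≥0∞)) g)
      = (fun g => (1 : ℝ≥0∞) * conv (tern 1) b p g + 3 * p g) := by
    funext g
    rw [conv_mix]
    simp
  rw [e] at h1
  rw [h2] at h1
  simpa using h1.symm

/-- Averaging over four colours. -/
theorem averaging (U : Finset G) : ∀ p : Fin 4 → G → ℝ≥0∞,
    ∃ f : G → Fin 4, ∑ i, FF (fun _ : G => tern 1) (U.filter (fun u => f u = i)) (p i) 0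
      ≤ ∑ i, FF (fun _ : G => tern 4⁻¹) U (p i) 0 := by
  induction U using Finset.induction_on with
  | empty => intro p; exact ⟨fun _ => 0, by simp⟩
  | insert b U hb ih =>
    intro p
    -- the four updates
    let P : Fin 4 → Fin 4 → G → ℝ≥0∞ := fun c => Function.update p c (conv (tern 1) b (p c))
    have hsum : ∑ c, ∑ i, FF (fun _ : G => tern 4⁻¹) U (P c i) 0
        = 4 * ∑ i, FF (fun _ : G => tern 4⁻¹) (insert b U) (p i) 0 := by
      have e1 : ∀ i, 4 * FF (fun _ : G => tern 4⁻¹) (insert b U) (p i) 0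
          = FF (fun _ : G => tern 4⁻¹) U (conv (tern 1) b (p i)) 0
            + 3 * FF (fun _ : G => tern 4⁻¹) U (p i) 0 := by
        intro i
        rw [← FF_mix, FF_insert _ hb, ← FF_conv]
      rw [Finset.mul_sum]
      simp only [e1]
      rw [Finset.sum_comm]
      refine Finset.sum_congr rfl fun i _ => ?_
      rw [← Finset.add_sum_erase _ _ (Finset.mem_univ i)]
      have e2 : P i i = conv (tern 1) b (p i) := by simp [P]
      have e3 : ∑ c ∈ Finset.univ.erase i, FF (fun _ : G => tern 4⁻¹) U (P c i) 0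
          = 3 * FF (fun _ : G => tern 4⁻¹) U (p i) 0 := by
        have e4 : ∀ c ∈ Finset.univ.erase i, FF (fun _ : G => tern 4⁻¹) U (P c i) 0
            = FF (fun _ : G => tern 4⁻¹) U (p i) 0 := by
          intro c hc
          have hci : i ≠ c := (Finset.ne_of_mem_erase hc).symm
          simp [P, Function.update_of_ne hci]
        rw [Finset.sum_congr rfl e4, Finset.sum_const, Finset.card_erase_of_mem (Finset.mem_univ i)]
        simp
      rw [e2, e3]
    obtain ⟨c, hc⟩ : ∃ c, ∑ i, FF (fun _ : G => tern 4⁻¹) U (P c i) 0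
        ≤ ∑ i, FF (fun _ : G => tern 4⁻¹) (insert b U) (p i) 0 := by
      by_contra hcon
      push Not at hcon
      have : ∑ c : Fin 4, ∑ i, FF (fun _ : G => tern 4⁻¹) (insert b U) (p i) 0
          < ∑ c, ∑ i, FF (fun _ : G => tern 4⁻¹) U (P c i) 0 :=
        ENNReal.sum_lt_sum_of_nonempty Finset.univ_nonempty (fun c _ => hcon c)
      rw [hsum, Finset.sum_const] at this
      simp at this
    obtain ⟨f, hf⟩ := ih (P c)
    refine ⟨Function.update f b c, ?_⟩
    refine le_trans (le_of_eq ?_) (hf.trans hc)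
    refine Finset.sum_congr rfl fun i _ => ?_
    by_cases hi : i = c
    · subst hi
      have e5 : (insert b U).filter (fun u => Function.update f b i u = i)
          = insert b (U.filter (fun u => f u = i)) := by
        ext x
        simp only [Finset.mem_filter, Finset.mem_insert]
        by_cases hx : x = b
        · subst hx; simp
        · simp [Function.update_of_ne hx, hx]
      have hb' : b ∉ U.filter (fun u => f u = i) := fun h => hb (Finset.mem_filter.1 h).1
      rw [e5, FF_insert _ hb', ← FF_conv]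
      simp [P]
    · have e5 : (insert b U).filter (fun u => Function.update f b c u = i)
          = U.filter (fun u => f u = i) := by
        ext x
        simp only [Finset.mem_filter, Finset.mem_insert]
        by_cases hx : x = b
        · subst hx
          have : ¬ c = i := fun h => hi h.symm
          simp [this, hb]
        · simp [Function.update_of_ne hx, hx]
      rw [e5]
      simp [P, Function.update_of_ne hi]

/-- A ternary representation contributes at least one. -/
theorem one_le_F {B : Finset G} (ε : G → ℤ) (hε : ∀ b, ε b = 0 ∨ ε b = 1 ∨ ε b = -1) :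
    1 ≤ F (fun _ : G => tern 1) B (∑ b ∈ B, ε b • b) := by
  induction B using Finset.induction_on with
  | empty => simp [dlt]
  | insert b B hb ih =>
    rw [F_insert _ hb, Finset.sum_insert hb]
    unfold conv
    refine le_trans ?_ (ENNReal.le_tsum (ε b))
    have e1 : tern 1 (ε b) = 1 := by
      rcases hε b with h | h | h <;> simp [tern, h]
    rw [e1, one_mul, add_sub_cancel_left]
    exact ih

/-- A nontrivial relation makes the mass at zero at least two. -/
theorem two_le_F {B : Finset G} (ε : G → ℤ) (hε : ∀ b, ε b = 0 ∨ ε b = 1 ∨ ε b = -1)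
    (h0 : ∑ b ∈ B, ε b • b = 0) {b : G} (hb : b ∈ B) (hne : ε b ≠ 0) :
    2 ≤ F (fun _ : G => tern 1) B 0 := by
  have hbB : b ∉ B.erase b := Finset.notMem_erase b B
  rw [← Finset.insert_erase hb, F_insert _ hbB]
  rw [← Finset.insert_erase hb, Finset.sum_insert hbB] at h0
  unfold conv
  have h1 : (1 : ℝ≥0∞) ≤ tern 1 0 * F (fun _ : G => tern 1) (B.erase b) (0 - (0 : ℤ) • b) := by
    rw [tern_zero, one_mul, zero_smul, sub_zero]
    exact F_zero_ge fun _ _ => tern_zero 1
  have h2 : (1 : ℝ≥0∞) ≤ tern 1 (ε b) * F (fun _ : G => tern 1) (B.erase b) (0 - ε b • b) := by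
    have e1 : tern 1 (ε b) = 1 := by
      rcases hε b with h | h | h <;> simp [tern, h]
    have e2 : 0 - ε b • b = ∑ x ∈ B.erase b, ε x • x := by
      rw [← h0]; abel
    rw [e1, one_mul, e2]
    exact one_le_F ε hε
  calc (2 : ℝ≥0∞) = 1 + 1 := by norm_num
    _ ≤ tern 1 0 * F (fun _ : G => tern 1) (B.erase b) (0 - (0 : ℤ) • b)
        + tern 1 (ε b) * F (fun _ : G => tern 1) (B.erase b) (0 - ε b • b) := add_le_add h1 h2
    _ = ∑ j ∈ ({0, ε b} : Finset ℤ), tern 1 j * F (fun _ : G => tern 1) (B.erase b) (0 - j • b) := by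
        rw [Finset.sum_pair (Ne.symm hne)]
    _ ≤ _ := ENNReal.sum_le_tsum _

theorem diss_of_lt {B : Finset G} (h : F (fun _ : G => tern 1) B 0 < 2) : Diss B := by
  intro X Y hX hY hXY
  by_contra hne
  apply absurd h
  rw [not_lt]
  let ε : G → ℤ := fun b => (if b ∈ X then 1 else 0) - (if b ∈ Y then 1 else 0)
  have hε : ∀ b, ε b = 0 ∨ ε b = 1 ∨ ε b = -1 := by
    intro b
    simp only [ε]
    split_ifs <;> simp
  have hsum : ∑ b ∈ B, ε b • b = 0 := by
    have e1 : ∀ b ∈ B, ε b • b = (if b ∈ X then b else 0) - (if b ∈ Y then b else 0) := by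
      intro b _
      simp only [ε, sub_smul]
      split_ifs <;> simp
    rw [Finset.sum_congr rfl e1, Finset.sum_sub_distrib, ← Finset.sum_filter, ← Finset.sum_filter,
      Finset.filter_mem_eq_inter, Finset.filter_mem_eq_inter, Finset.inter_eq_right.2 hX,
      Finset.inter_eq_right.2 hY, hXY, sub_self]
  obtain ⟨b, hb⟩ : ∃ b, ¬ (b ∈ X ↔ b ∈ Y) := by
    by_contra hcon
    push Not at hcon
    exact hne (Finset.ext hcon)
  have hbB : b ∈ B := by
    by_cases hbX : b ∈ X
    · exact hX hbX
    · by_cases hbY : b ∈ Y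
      · exact hY hbY
      · exact absurd (by simp [hbX, hbY]) hb
  refine two_le_F ε hε hsum hbB ?_
  simp only [ε]
  by_cases hbX : b ∈ X <;> by_cases hbY : b ∈ Y <;> simp [hbX, hbY] at hb ⊢

/-- The four colour theorem. -/
theorem four_colour {Z : Finset G} (h : 4 * F (fun _ : G => tern 4⁻¹) Z 0 < 5) :
    ∃ f : G → Fin 4, ∀ i, Diss (Z.filter (fun z => f z = i)) := by
  obtain ⟨f, hf⟩ := averaging Z (fun _ => dlt)
  refine ⟨f, fun i => diss_of_lt ?_⟩
  have e1 : ∑ i : Fin 4, FF (fun _ : G => tern 4⁻¹) Z dlt 0 = 4 * F (fun _ : G => tern 4⁻¹) Z 0 := by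
    rw [Finset.sum_const]
    simp [F]
  rw [e1] at hf
  have h1 := lt_of_le_of_lt hf h
  by_contra hcon
  rw [not_lt] at hcon
  rw [← Finset.add_sum_erase _ _ (Finset.mem_univ i)] at h1
  have h3 : (3 : ℝ≥0∞) ≤ ∑ j ∈ Finset.univ.erase i,
      FF (fun _ : G => tern 1) (Z.filter (fun u => f u = j)) dlt 0 := by
    calc (3 : ℝ≥0∞) = ∑ j ∈ (Finset.univ : Finset (Fin 4)).erase i, 1 := by
          rw [Finset.sum_const, Finset.card_erase_of_mem (Finset.mem_univ i)]
          simp
      _ ≤ _ := Finset.sum_le_sum fun j _ => F_zero_ge fun _ _ => tern_zero 1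
  have h5 : (5 : ℝ≥0∞) ≤ FF (fun _ : G => tern 1) (Z.filter (fun u => f u = i)) dlt 0
      + ∑ j ∈ Finset.univ.erase i, FF (fun _ : G => tern 1) (Z.filter (fun u => f u = j)) dlt 0 := by
    calc (5 : ℝ≥0∞) = 2 + 3 := by norm_num
      _ ≤ _ := add_le_add hcon h3
  exact absurd h1 (not_lt.2 h5)

end Pool.Agent.Helper36.LL
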