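import Mathlib
import Pool.Agent.Helper36.LL.Size
import Pool.Agent.Helper36.LL.Colour
import Pool.Agent.S12.TT

/-!
Assembly: in a group without elements of order two, a finite set `V` all of whose subsets contain
proportionally large dissociated subsets is a union of `O (log log |V|)` dissociated sets.
-/

set_option autoImplicit false

namespace Pool.Agent.Helper36.LL

open scoped ENNReal
open Finset
open Pool.Agent.Helper80.SU (Diss)

variable {G : Type*} [AddCommGroup G] [DecidableEq G]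

theorem FF_union (w : G → ℤ → ℝ≥0∞) {A B : Finset G} (h : Disjoint A B) (p : G → ℝ≥0∞) :
    FF w (A ∪ B) p = FF w A (FF w B p) := by
  induction A using Finset.induction_on with
  | empty => simp
  | insert c A hc ih =>
    rw [Finset.disjoint_insert_left] at h
    rw [Finset.insert_union, FF_insert w hc, FF_insert w (by
      rw [Finset.mem_union, not_or]; exact ⟨hc, h.1⟩), ih h.2]

/-- The span relation. -/
def Spn (z : ℝ≥0∞) (v : G) (B : Finset G) : Prop :=
  F (fun _ : G => gw (z ^ 2)) B 0 ≤ 2 * F (fun _ : G => gw (z ^ 2)) B v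

theorem Spn.mono (h2 : ∀ x : G, x + x = 0 → x = 0) {z : ℝ≥0∞} (hz : z < 1) {v : G} {B B' : Finset G}
    (hB : B ⊆ B') (h : Spn z v B) : Spn z v B' := by
  unfold Spn at *
  have hz2 : z ^ 2 < 1 := pow_lt_one' hz (by norm_num)
  set p0 := F (fun _ : G => gw (z ^ 2)) B with hp0
  set p := F (fun _ : G => gw (z ^ 2)) B' with hp
  have e1 : p = FF (fun _ : G => gw (z ^ 2)) (B' \ B) p0 := by
    rw [hp, hp0]
    unfold F
    rw [← FF_union _ Finset.sdiff_disjoint, Finset.sdiff_union_of_subset hB]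
  have hD0 : Dom p0 p0 := Dom.FF (fun _ _ => CP_gg z) Dom.dlt
  have hD : Dom p p0 := by rw [e1]; exact Dom.FF_left hD0
  have hsym : ∀ v, p (-v) = p v := F_neg fun _ _ j => gw_neg _ j
  have h1 := Dom.le h2 hD hsym v
  have hp00 : 1 ≤ p0 0 := gw_F_ge _ B
  have hpv : p0 v ≠ 0 := by
    intro h0
    rw [h0, mul_zero] at h
    exact absurd (hp00.trans h) (by norm_num)
  have hpt : p0 v ≠ ∞ := F_ne_top hz2 B v
  have : p0 v * p 0 ≤ p0 v * (2 * p v) := by
    calc p0 v * p 0 = p 0 * p0 v := by ring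
      _ ≤ p v * p0 0 := h1
      _ ≤ p v * (2 * p0 v) := by gcongr
      _ = _ := by ring
  exact (ENNReal.mul_le_mul_iff_right hpv hpt).1 this

/-- An unspanned element occurs in few relations. -/
theorem unspanned (h2 : ∀ x : G, x + x = 0 → x = 0) {K : ℕ} {z : ℝ≥0∞} (hz : z < 1)
    (hzK : ((z ^ 2) ^ 2) ^ (2 ^ K) = 2⁻¹) {B : Finset G} {v : G} (h : ¬ Spn (z ^ 2) v B) :
    2 ^ (2 ^ K) * F (fun _ : G => tern 4⁻¹) B v ≤ F (fun _ : G => tern 4⁻¹) B 0 := by
  unfold Spn at h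
  push Not at h
  have hz4 : (z ^ 2) ^ 2 = z ^ 4 := by ring
  rw [hz4] at h hzK
  have h1 := scale_iter h2 hz B v (a := 2) h.le K
  set y : ℝ≥0∞ := (z ^ (2 ^ K)) ^ 2 with hy
  have hy2 : (z ^ (2 ^ K)) ^ 4 = y ^ 2 := by rw [hy]; ring
  have hy3 : y ^ 2 = 2⁻¹ := by
    rw [← hzK, hy, ← pow_mul, ← pow_mul, ← pow_mul]
    congr 1
    ring
  have hq : (2⁻¹ : ℝ≥0∞) * y ^ 2 = 4⁻¹ := by
    rw [hy3, ← ENNReal.mul_inv (Or.inl (by norm_num)) (Or.inl (by norm_num))]
    norm_num
  rw [hy2] at h1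
  have hCP : CP (kk (gw (y ^ 2)) (tern 4⁻¹)) := by
    rw [← hq]; exact CP_tern y
  have hDom : Dom (F (fun _ : G => gw (y ^ 2)) B) (F (fun _ : G => tern 4⁻¹) B) :=
    Dom.FF (fun _ _ => hCP) Dom.dlt
  have h3 := Dom.le h2 hDom (F_neg fun _ _ j => gw_neg _ j) v
  set W := F (fun _ : G => gw (y ^ 2)) B 0 with hW
  set w := F (fun _ : G => gw (y ^ 2)) B v with hw
  set T := F (fun _ : G => tern 4⁻¹) B 0 with hT
  set t := F (fun _ : G => tern 4⁻¹) B v with ht
  have hylt : y ^ 2 < 1 := by rw [hy3]; exact ENNReal.inv_lt_one.2 (by norm_num)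
  have hW0 : W ≠ 0 := (lt_of_lt_of_le one_pos (gw_F_ge _ B)).ne'
  have hWt : W ≠ ∞ := F_ne_top hylt B 0
  have h4 : W * (2 ^ (2 ^ K) * t) ≤ W * T := by
    calc W * (2 ^ (2 ^ K) * t) = 2 ^ (2 ^ K) * (W * t) := by ring
      _ ≤ 2 ^ (2 ^ K) * (w * T) := by gcongr
      _ = (2 ^ (2 ^ K) * w) * T := by ring
      _ ≤ W * T := by gcongr
  exact (ENNReal.mul_le_mul_iff_right hW0 hWt).1 h4

/-- Sets with an elimination order carry few relations. -/
theorem theta_le {a : ℝ≥0∞} (ha0 : a ≠ 0) (hat : a ≠ ∞) (S : Finset G → G → Prop)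
    (hS : ∀ B v, ¬ S B v → a * F (fun _ : G => tern 4⁻¹) B v ≤ F (fun _ : G => tern 4⁻¹) B 0) :
    ∀ Z : Finset G, (Z.card : ℝ≥0∞) ≤ a →
      (∀ Z' ⊆ Z, Z'.Nonempty → ∃ z ∈ Z', ¬ S (Z'.erase z) z) →
      a * F (fun _ : G => tern 4⁻¹) Z 0 ≤ a + Z.card := by
  intro Z
  induction hn : Z.card using Nat.strong_induction_on generalizing Z with
  | _ n ih =>
    intro hZa hZ
    rcases Z.eq_empty_or_nonempty with rfl | hne
    · simp [dlt]
    · obtain ⟨z, hz, hzS⟩ := hZ Z (Finset.Subset.refl _) hne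
      have hcard : (Z.erase z).card + 1 = Z.card := Finset.card_erase_add_one hz
      set Y := Z.erase z with hY
      have hzY : z ∉ Y := Finset.notMem_erase z Z
      have hYZ : insert z Y = Z := Finset.insert_erase hz
      have hYa : (Y.card : ℝ≥0∞) ≤ a := by
        refine le_trans ?_ hZa
        exact_mod_cast (by omega : Y.card ≤ n)
      have h1 := ih Y.card (by omega) Y rfl hYa
        (fun Z' hZ' hne' => hZ Z' (hZ'.trans (Finset.erase_subset _ _)) hne')
      have h3 := hS Y z hzS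
      set T := F (fun _ : G => tern 4⁻¹) Y 0 with hT
      set t := F (fun _ : G => tern 4⁻¹) Y z with ht
      have hsym : ∀ v, F (fun _ : G => tern 4⁻¹) Y (-v) = F (fun _ : G => tern 4⁻¹) Y v :=
        F_neg fun _ _ j => tern_neg _ j
      have e1 : F (fun _ : G => tern 4⁻¹) Z 0 = T + 4⁻¹ * (t + t) := by
        rw [← hYZ, F_insert _ hzY, conv_tern, zero_sub, zero_add, hsym]
      have hT2 : T ≤ 2 := by
        have : a * T ≤ a * 2 := by
          calc a * T ≤ a + Y.card := h1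
            _ ≤ a + a := by gcongr
            _ = a * 2 := by ring
        exact (ENNReal.mul_le_mul_iff_right ha0 hat).1 this
      rw [e1]
      have hc : (4 : ℝ≥0∞)⁻¹ * 4 = 1 := ENNReal.inv_mul_cancel (by norm_num) (by norm_num)
      calc a * (T + 4⁻¹ * (t + t)) = a * T + 4⁻¹ * (2 * (a * t)) := by ring
        _ ≤ (a + Y.card) + 4⁻¹ * (2 * T) := by gcongr
        _ ≤ (a + Y.card) + 4⁻¹ * (2 * 2) := by gcongr
        _ = a + (Y.card + 1) := by
            have : (4 : ℝ≥0∞)⁻¹ * (2 * 2) = 1 := by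
              rw [← hc]; congr 1; norm_num
            rw [this, add_assoc]
        _ = a + n := by
            congr 1
            have : Y.card + 1 = n := by omega
            exact_mod_cast this

theorem exists_root (K : ℕ) : ∃ z : ℝ≥0∞, z < 1 ∧ ((z ^ 2) ^ 2) ^ (2 ^ K) = 2⁻¹ := by
  refine ⟨(2⁻¹ : ℝ≥0∞) ^ ((1 : ℝ) / (4 * 2 ^ K : ℕ)), ?_, ?_⟩
  · refine ENNReal.rpow_lt_one (ENNReal.inv_lt_one.2 (by norm_num)) ?_
    positivity
  · rw [← pow_mul, ← pow_mul, ← ENNReal.rpow_natCast, ← ENNReal.rpow_mul]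
    have : (1 : ℝ) / (4 * 2 ^ K : ℕ) * (2 * (2 * 2 ^ K) : ℕ) = 1 := by
      have h : (2 * (2 * 2 ^ K) : ℕ) = (4 * 2 ^ K : ℕ) := by ring
      rw [h]
      field_simp
    rw [this, ENNReal.rpow_one]

/-- **Main theorem**, finite form. -/
theorem main_finite (h2 : ∀ x : G, x + x = 0 → x = 0) (C K : ℕ) (V : Finset G)
    (hVK : 4 * V.card < 2 ^ (2 ^ K))
    (hV : ∀ B : Finset G, B ⊆ V → ∃ D : Finset G, D ⊆ B ∧ Diss D ∧ B.card ≤ C * D.card) :
    ∃ f : G → Fin ((4 * C * (K + 2) + 2) * 4), ∀ j, Diss (V.filter (fun v => f v = j)) := by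
  classical
  obtain ⟨z, hz, hzK⟩ := exists_root K
  have hz2 : z ^ 2 < 1 := pow_lt_one' hz (by norm_num)
  obtain ⟨c, hc⟩ := Pool.Agent.S12.absorb V (fun B v => Spn (z ^ 2) v B)
    (fun S T u hST h => Spn.mono h2 hz2 hST h) (2 * C * (K + 2) : ℕ) (4 * C * (K + 2) + 2)
    (by push_cast; linarith) (by omega) (by
      intro S T _ hT hST
      obtain ⟨D, hDT, hD, hcard⟩ := hV T hT
      have h1 := size_le h2 hz2 hzK hD (B := S) (fun v hv => hST v (hDT hv))
      have h3 : T.card ≤ 2 * C * (K + 2) * S.card := by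
        calc T.card ≤ C * D.card := hcard
          _ ≤ C * (2 * (K + 2) * S.card) := Nat.mul_le_mul_left _ h1
          _ = _ := by ring
      exact_mod_cast h3)
  -- four colours for each class
  have hfour : ∀ i : Fin (4 * C * (K + 2) + 2), ∃ g : G → Fin 4,
      ∀ j, Diss ((V.filter (fun v => c v = i)).filter (fun v => g v = j)) := by
    intro i
    set Z := V.filter (fun v => c v = i) with hZ
    have hZV : Z ⊆ V := Finset.filter_subset _ _
    have hZcard : Z.card ≤ V.card := Finset.card_le_card hZV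
    have ha0 : (2 : ℝ≥0∞) ^ (2 ^ K) ≠ 0 := pow_ne_zero _ (by norm_num)
    have hat : (2 : ℝ≥0∞) ^ (2 ^ K) ≠ ∞ := ENNReal.pow_ne_top (by norm_num)
    have hZ4 : 4 * Z.card < 2 ^ (2 ^ K) := by omega
    have hZ4' : (4 : ℝ≥0∞) * Z.card < 2 ^ (2 ^ K) := by exact_mod_cast hZ4
    have h1 := theta_le ha0 hat (fun B v => Spn (z ^ 2) v B)
      (fun B v h => unspanned h2 hz hzK h) Z (by
        have : Z.card ≤ 2 ^ (2 ^ K) := by omega
        exact_mod_cast this) (by
        intro Z' hZ' hne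
        refine hc Z' (hZ'.trans hZV) hne ?_
        intro x hx y hy
        rw [(Finset.mem_filter.1 (hZ' hx)).2, (Finset.mem_filter.1 (hZ' hy)).2])
    refine four_colour ?_
    set a : ℝ≥0∞ := 2 ^ (2 ^ K) with ha
    set T := F (fun _ : G => tern 4⁻¹) Z 0 with hT
    have h3 : a * (4 * T) < a * 5 := by
      calc a * (4 * T) = 4 * (a * T) := by ring
        _ ≤ 4 * (a + Z.card) := by gcongr
        _ = 4 * a + 4 * Z.card := by ring
        _ < 4 * a + a := ENNReal.add_lt_add_left (ENNReal.mul_ne_top (by norm_num) hat) hZ4'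
        _ = a * 5 := by ring
    exact (ENNReal.mul_lt_mul_iff_right ha0 hat).1 h3
  choose g hg using hfour
  refine ⟨fun v => finProdFinEquiv (c v, g (c v) v), fun j => ?_⟩
  obtain ⟨⟨i, k⟩, rfl⟩ := finProdFinEquiv.surjective j
  have : V.filter (fun v => finProdFinEquiv (c v, g (c v) v) = finProdFinEquiv (i, k))
      = (V.filter (fun v => c v = i)).filter (fun v => g i v = k) := by
    ext v
    simp only [Finset.mem_filter, EmbeddingLike.apply_eq_iff_eq, Prod.mk.injEq]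
    constructor
    · rintro ⟨h1, h3, h4⟩
      subst h3
      exact ⟨⟨h1, rfl⟩, h4⟩
    · rintro ⟨⟨h1, h3⟩, h4⟩
      subst h3
      exact ⟨h1, rfl, h4⟩
  rw [this]
  exact hg i k

end Pool.Agent.Helper36.LL
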